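import Pool.Agent.EKL.Ful

/-!
# The stable subspaces of pairs of matrices

Helper33, for MP_0707f5_ag (the near-linear range of helper21 and helper35).  `G` acts on pairs of
matrices by left multiplication with two irreducible representations of rank `r`: each stable subspace
has a stable complement, and each stable subspace which is not zero contains one of dimension `r`.
-/

set_option autoImplicit false

namespace Pool.Agent.EKL

open Module Matrix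
open LGP (prR prR_apply)

section compl
variable {K U : Type*} [Field K] [AddCommGroup U] [Module K U] [FiniteDimensional K U]

/-- complements, if the simple stable subspaces span everything -/
theorem compl_of_simples (P : Submodule K U → Prop) (hbot : P ⊥)
    (hsup : ∀ S T, P S → P T → P (S ⊔ T)) (hinf : ∀ S T, P S → P T → P (S ⊓ T))
    (C : Set (Submodule K U)) (hC : ∀ E ∈ C, P E ∧ ∀ W, P W → W ≤ E → W = ⊥ ∨ W = E)
    (htop : sSup C = ⊤) (S : Submodule K U) (hS : P S) :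
    ∃ T, P T ∧ S ⊓ T = ⊥ ∧ S ⊔ T = ⊤ := by
  obtain ⟨T, ⟨hT, hST⟩, hmax⟩ := WellFounded.has_min
    (wellFounded_gt (α := Submodule K U)) {T | P T ∧ S ⊓ T = ⊥} ⟨⊥, hbot, inf_bot_eq S⟩
  refine ⟨T, hT, hST, ?_⟩
  rw [eq_top_iff, ← htop]
  refine sSup_le fun E hE => ?_
  obtain ⟨hE1, hE2⟩ := hC E hE
  rcases hE2 (E ⊓ (S ⊔ T)) (hinf _ _ hE1 (hsup _ _ hS hT)) inf_le_left with h | h
  · have h1 : S ⊓ (T ⊔ E) = ⊥ := by
      rw [eq_bot_iff]
      rintro s ⟨hs, hs'⟩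
      obtain ⟨t, ht, e, he, rfl⟩ := Submodule.mem_sup.1 hs'
      have h2 : e ∈ E ⊓ (S ⊔ T) := by
        refine ⟨he, ?_⟩
        have h3 : e = (t + e) - t := by abel
        rw [h3]
        exact Submodule.sub_mem _ (Submodule.mem_sup_left hs) (Submodule.mem_sup_right ht)
      rw [h, Submodule.mem_bot] at h2
      rw [h2, add_zero] at hs ⊢
      have h3 : t ∈ S ⊓ T := ⟨hs, ht⟩
      rwa [hST] at h3
    have h2 := hmax (T ⊔ E) ⟨hsup _ _ hT hE1, h1⟩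
    have h3 : T ⊔ E = T := by
      by_contra hne
      exact h2 (lt_of_le_of_ne le_sup_left (Ne.symm hne))
    exact (sup_eq_left.1 h3).trans le_sup_right
  · rw [← h]
    exact inf_le_right

end compl

section ssi
variable {G : Type} [Group G] {r : ℕ}

/-- a column of one of the two matrices -/
noncomputable def col (i : Bool) (j : Fin r) :
    Matrix (Fin r) (Fin r) ℂ × Matrix (Fin r) (Fin r) ℂ →ₗ[ℂ] (Fin r → ℂ) where
  toFun X := (bif i then X.2 else X.1) *ᵥ Pi.single j 1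
  map_add' X Y := by
    cases i
    · exact Matrix.add_mulVec _ _ _
    · exact Matrix.add_mulVec _ _ _
  map_smul' c X := by
    cases i
    · exact Matrix.smul_mulVec _ _ _
    · exact Matrix.smul_mulVec _ _ _

/-- a pair of matrices with one column -/
noncomputable def emb (i : Bool) (j : Fin r) :
    (Fin r → ℂ) →ₗ[ℂ] Matrix (Fin r) (Fin r) ℂ × Matrix (Fin r) (Fin r) ℂ where
  toFun v := bif i then (0, Matrix.vecMulVec v (Pi.single j 1)) else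
    (Matrix.vecMulVec v (Pi.single j 1), 0)
  map_add' v w := by
    cases i
    · exact Prod.ext (Matrix.add_vecMulVec _ _ _) (add_zero _).symm
    · exact Prod.ext (add_zero _).symm (Matrix.add_vecMulVec _ _ _)
  map_smul' c v := by
    cases i
    · exact Prod.ext (Matrix.smul_vecMulVec _ _ _) (smul_zero _).symm
    · exact Prod.ext (smul_zero _).symm (Matrix.smul_vecMulVec _ _ _)

/-- the component of the pair of representations -/
def cmp (ρ₁ ρ₂ : G →* GL (Fin r) ℂ) (i : Bool) : G →* GL (Fin r) ℂ := bif i then ρ₂ else ρ₁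

theorem col_prR (ρ₁ ρ₂ : G →* GL (Fin r) ℂ) (i : Bool) (j : Fin r) (x : G)
    (X : Matrix (Fin r) (Fin r) ℂ × Matrix (Fin r) (Fin r) ℂ) :
    col i j (prR ρ₁ ρ₂ x X) = (cmp ρ₁ ρ₂ i x : Matrix (Fin r) (Fin r) ℂ) *ᵥ col i j X := by
  obtain ⟨X, Y⟩ := X
  rw [prR_apply]
  cases i
  · show ((ρ₁ x : Matrix (Fin r) (Fin r) ℂ) * X) *ᵥ Pi.single j (1 : ℂ) =
      (ρ₁ x : Matrix (Fin r) (Fin r) ℂ) *ᵥ (X *ᵥ Pi.single j (1 : ℂ))
    rw [Matrix.mulVec_mulVec]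
  · show ((ρ₂ x : Matrix (Fin r) (Fin r) ℂ) * Y) *ᵥ Pi.single j (1 : ℂ) =
      (ρ₂ x : Matrix (Fin r) (Fin r) ℂ) *ᵥ (Y *ᵥ Pi.single j (1 : ℂ))
    rw [Matrix.mulVec_mulVec]

theorem emb_prR (ρ₁ ρ₂ : G →* GL (Fin r) ℂ) (i : Bool) (j : Fin r) (x : G) (v : Fin r → ℂ) :
    prR ρ₁ ρ₂ x (emb i j v) =
      emb i j ((cmp ρ₁ ρ₂ i x : Matrix (Fin r) (Fin r) ℂ) *ᵥ v) := by
  cases i
  · show prR ρ₁ ρ₂ x (Matrix.vecMulVec v (Pi.single j 1), 0) =
      (Matrix.vecMulVec ((ρ₁ x : Matrix (Fin r) (Fin r) ℂ) *ᵥ v) (Pi.single j 1), 0)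
    rw [prR_apply, Matrix.mul_vecMulVec, mul_zero]
  · show prR ρ₁ ρ₂ x (0, Matrix.vecMulVec v (Pi.single j 1)) =
      (0, Matrix.vecMulVec ((ρ₂ x : Matrix (Fin r) (Fin r) ℂ) *ᵥ v) (Pi.single j 1))
    rw [prR_apply, Matrix.mul_vecMulVec, mul_zero]

/-- a stable subspace of pairs of matrices -/
def Stp (ρ₁ ρ₂ : G →* GL (Fin r) ℂ)
    (S : Submodule ℂ (Matrix (Fin r) (Fin r) ℂ × Matrix (Fin r) (Fin r) ℂ)) : Prop :=
  ∀ x : G, ∀ s ∈ S, prR ρ₁ ρ₂ x s ∈ S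

theorem Stp.bot (ρ₁ ρ₂ : G →* GL (Fin r) ℂ) : Stp ρ₁ ρ₂ ⊥ := by
  intro x s hs
  rw [Submodule.mem_bot] at hs ⊢
  rw [hs, map_zero]

theorem Stp.sup {ρ₁ ρ₂ : G →* GL (Fin r) ℂ}
    {S T : Submodule ℂ (Matrix (Fin r) (Fin r) ℂ × Matrix (Fin r) (Fin r) ℂ)}
    (hS : Stp ρ₁ ρ₂ S) (hT : Stp ρ₁ ρ₂ T) : Stp ρ₁ ρ₂ (S ⊔ T) := by
  intro x v hv
  obtain ⟨a, ha, b, hb, rfl⟩ := Submodule.mem_sup.1 hv
  rw [map_add]
  exact Submodule.add_mem_sup (hS x a ha) (hT x b hb)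

theorem Stp.inf {ρ₁ ρ₂ : G →* GL (Fin r) ℂ}
    {S T : Submodule ℂ (Matrix (Fin r) (Fin r) ℂ × Matrix (Fin r) (Fin r) ℂ)}
    (hS : Stp ρ₁ ρ₂ S) (hT : Stp ρ₁ ρ₂ T) : Stp ρ₁ ρ₂ (S ⊓ T) := fun x v hv =>
  ⟨hS x v hv.1, hT x v hv.2⟩

theorem Stp.ker {ρ₁ ρ₂ : G →* GL (Fin r) ℂ} (i : Bool) (j : Fin r) :
    Stp ρ₁ ρ₂ (LinearMap.ker (col (r := r) i j)) := by
  intro x s hs
  rw [LinearMap.mem_ker] at hs ⊢
  rw [col_prR, hs, Matrix.mulVec_zero]

theorem cmp_irr {ρ₁ ρ₂ : G →* GL (Fin r) ℂ} (h1 : Pool.Agent.HZ.Irr ρ₁.range)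
    (h2 : Pool.Agent.HZ.Irr ρ₂.range) (i : Bool) (W : Submodule ℂ (Fin r → ℂ))
    (hW : ∀ x, ∀ v ∈ W, (cmp ρ₁ ρ₂ i x : Matrix (Fin r) (Fin r) ℂ) *ᵥ v ∈ W) :
    W = ⊥ ∨ W = ⊤ := by
  cases i
  · exact h1 W (by
      rintro _ ⟨y, rfl⟩ v hv
      exact hW y v hv)
  · exact h2 W (by
      rintro _ ⟨y, rfl⟩ v hv
      exact hW y v hv)

theorem Stp.range_emb {ρ₁ ρ₂ : G →* GL (Fin r) ℂ} (i : Bool) (j : Fin r) :
    Stp ρ₁ ρ₂ (LinearMap.range (emb (r := r) i j)) := by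
  rintro x _ ⟨v, rfl⟩
  rw [emb_prR]
  exact ⟨_, rfl⟩

theorem emb_simple {ρ₁ ρ₂ : G →* GL (Fin r) ℂ} (h1 : Pool.Agent.HZ.Irr ρ₁.range)
    (h2 : Pool.Agent.HZ.Irr ρ₂.range) (i : Bool) (j : Fin r)
    (W : Submodule ℂ (Matrix (Fin r) (Fin r) ℂ × Matrix (Fin r) (Fin r) ℂ))
    (hW : Stp ρ₁ ρ₂ W) (hle : W ≤ LinearMap.range (emb (r := r) i j)) :
    W = ⊥ ∨ W = LinearMap.range (emb (r := r) i j) := by
  rcases cmp_irr h1 h2 i (W.comap (emb i j)) (fun x v hv => by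
    rw [Submodule.mem_comap, ← emb_prR]
    exact hW x _ hv) with h | h
  · left
    rw [eq_bot_iff]
    intro w hw
    obtain ⟨v, rfl⟩ := hle hw
    have h3 : v ∈ W.comap (emb i j) := hw
    rw [h, Submodule.mem_bot] at h3
    rw [h3, map_zero]
    exact Submodule.zero_mem _
  · right
    refine le_antisymm hle ?_
    rintro _ ⟨v, rfl⟩
    have h3 : v ∈ W.comap (emb i j) := by
      rw [h]
      trivial
    exact h3

/-- the columns span everything -/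
theorem sSup_emb : sSup {E | ∃ (i : Bool) (j : Fin r), E = LinearMap.range (emb (r := r) i j)} =
    ⊤ := by
  rw [eq_top_iff]
  rintro ⟨X, Y⟩ -
  have hX : ∀ X : Matrix (Fin r) (Fin r) ℂ,
      X = ∑ j, Matrix.vecMulVec (X *ᵥ Pi.single j 1) (Pi.single j 1) := by
    intro X
    ext a b
    rw [Matrix.sum_apply, Finset.sum_eq_single b]
    · rw [Matrix.vecMulVec_apply, Matrix.mulVec_single_one, Pi.single_eq_same, mul_one]
      rfl
    · intro j _ hj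
      rw [Matrix.vecMulVec_apply, Pi.single_eq_of_ne (Ne.symm hj), mul_zero]
    · intro h
      exact absurd (Finset.mem_univ b) h
  have h1 : (X, Y) = (∑ j, emb (r := r) false j (X *ᵥ Pi.single j 1)) +
      ∑ j, emb (r := r) true j (Y *ᵥ Pi.single j 1) := by
    refine Prod.ext ?_ ?_
    · rw [Prod.fst_add, Prod.fst_sum, Prod.fst_sum]
      show X = ∑ j, Matrix.vecMulVec (X *ᵥ Pi.single j 1) (Pi.single j 1) +
        ∑ _j : Fin r, (0 : Matrix (Fin r) (Fin r) ℂ)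
      rw [Finset.sum_const_zero, add_zero]
      exact hX X
    · rw [Prod.snd_add, Prod.snd_sum, Prod.snd_sum]
      show Y = ∑ _j : Fin r, (0 : Matrix (Fin r) (Fin r) ℂ) +
        ∑ j, Matrix.vecMulVec (Y *ᵥ Pi.single j 1) (Pi.single j 1)
      rw [Finset.sum_const_zero, zero_add]
      exact hX Y
  rw [h1]
  have h2 : ∀ (i : Bool) (j : Fin r) (v : Fin r → ℂ), emb (r := r) i j v ∈
      sSup {E | ∃ (i : Bool) (j : Fin r), E = LinearMap.range (emb (r := r) i j)} :=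
    fun i j v => by
      have h3 : LinearMap.range (emb (r := r) i j) ≤
          sSup {E | ∃ (i : Bool) (j : Fin r), E = LinearMap.range (emb (r := r) i j)} :=
        le_sSup ⟨i, j, rfl⟩
      exact h3 ⟨v, rfl⟩
  exact Submodule.add_mem _ (Submodule.sum_mem _ fun j _ => h2 _ _ _)
    (Submodule.sum_mem _ fun j _ => h2 _ _ _)

/-- **complements** -/
theorem Stp.compl {ρ₁ ρ₂ : G →* GL (Fin r) ℂ} (h1 : Pool.Agent.HZ.Irr ρ₁.range)
    (h2 : Pool.Agent.HZ.Irr ρ₂.range)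
    (S : Submodule ℂ (Matrix (Fin r) (Fin r) ℂ × Matrix (Fin r) (Fin r) ℂ))
    (hS : Stp ρ₁ ρ₂ S) : ∃ T, Stp ρ₁ ρ₂ T ∧ S ⊓ T = ⊥ ∧ S ⊔ T = ⊤ :=
  compl_of_simples (Stp ρ₁ ρ₂) (Stp.bot ρ₁ ρ₂) (fun _ _ => Stp.sup) (fun _ _ => Stp.inf)
    {E | ∃ (i : Bool) (j : Fin r), E = LinearMap.range (emb (r := r) i j)}
    (by
      rintro _ ⟨i, j, rfl⟩
      exact ⟨Stp.range_emb i j, fun W hW hle => emb_simple h1 h2 i j W hW hle⟩)
    sSup_emb S hS

/-- **simple stable subspaces have dimension `r`** -/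
theorem Stp.dim {ρ₁ ρ₂ : G →* GL (Fin r) ℂ} (h1 : Pool.Agent.HZ.Irr ρ₁.range)
    (h2 : Pool.Agent.HZ.Irr ρ₂.range)
    (S : Submodule ℂ (Matrix (Fin r) (Fin r) ℂ × Matrix (Fin r) (Fin r) ℂ))
    (hS : Stp ρ₁ ρ₂ S) (h0 : S ≠ ⊥) :
    ∃ T, Stp ρ₁ ρ₂ T ∧ T ≤ S ∧ finrank ℂ T = r ∧ T ≠ ⊥ := by
  obtain ⟨T, ⟨hT, hTb, hTS⟩, hmin⟩ := WellFounded.has_min
    (wellFounded_lt (α := Submodule ℂ (Matrix (Fin r) (Fin r) ℂ × Matrix (Fin r) (Fin r) ℂ)))
    {T | Stp ρ₁ ρ₂ T ∧ T ≠ ⊥ ∧ T ≤ S} ⟨S, hS, h0, le_rfl⟩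
  refine ⟨T, hT, hTS, ?_, hTb⟩
  have hsm : ∀ W, Stp ρ₁ ρ₂ W → W ≤ T → W = ⊥ ∨ W = T := by
    intro W hW hle
    by_contra hcon
    push Not at hcon
    exact hmin W ⟨hW, hcon.1, hle.trans hTS⟩ (lt_of_le_of_ne hle hcon.2)
  obtain ⟨i, j, hij⟩ : ∃ (i : Bool) (j : Fin r), ¬ T ≤ LinearMap.ker (col (r := r) i j) := by
    by_contra hcon
    push Not at hcon
    refine hTb ?_
    rw [eq_bot_iff]
    rintro ⟨X, Y⟩ hXY
    rw [Submodule.mem_bot]
    refine Prod.ext ?_ ?_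
    · ext a b
      have h3 := LinearMap.mem_ker.1 (hcon false b hXY)
      have h4 := congrFun h3 a
      have h5 : (X *ᵥ Pi.single b 1) a = 0 := h4
      rw [Matrix.mulVec_single_one] at h5
      exact h5
    · ext a b
      have h3 := LinearMap.mem_ker.1 (hcon true b hXY)
      have h4 := congrFun h3 a
      have h5 : (Y *ᵥ Pi.single b 1) a = 0 := h4
      rw [Matrix.mulVec_single_one] at h5
      exact h5
  have hker : T ⊓ LinearMap.ker (col (r := r) i j) = ⊥ := by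
    refine (hsm _ (hT.inf (Stp.ker i j)) inf_le_left).resolve_right fun h => hij ?_
    rw [← h]
    exact inf_le_right
  have hmap : T.map (col i j) = ⊤ := by
    refine (cmp_irr h1 h2 i (T.map (col i j)) ?_).resolve_left fun h => hij ?_
    · rintro x _ ⟨t, ht, rfl⟩
      rw [← col_prR]
      exact ⟨_, hT x t ht, rfl⟩
    · intro t ht
      have h3 : col i j t ∈ T.map (col i j) := ⟨t, ht, rfl⟩
      rw [h, Submodule.mem_bot] at h3
      exact h3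
  have hinj : Function.Injective ((col (r := r) i j).domRestrict T) := by
    rw [← LinearMap.ker_eq_bot, eq_bot_iff]
    rintro ⟨t, ht⟩ h3
    have h4 : t ∈ T ⊓ LinearMap.ker (col (r := r) i j) := ⟨ht, h3⟩
    rw [hker, Submodule.mem_bot] at h4
    rw [Submodule.mem_bot]
    exact Subtype.ext h4
  have h3 := LinearMap.finrank_range_of_inj hinj
  have h4 : LinearMap.range ((col (r := r) i j).domRestrict T) = T.map (col i j) := by
    ext v
    constructor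
    · rintro ⟨⟨t, ht⟩, rfl⟩
      exact ⟨t, ht, rfl⟩
    · rintro ⟨t, ht, rfl⟩
      exact ⟨⟨t, ht⟩, rfl⟩
  rw [h4, hmap, finrank_top, Module.finrank_fin_fun] at h3
  exact h3.symm

end ssi

end Pool.Agent.EKL
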