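import Pool.Agent.EKL.Pon
import Pool.Agent.EKL.Ssi
import Pool.Agent.NLG.Gro
import Pool.Agent.NLG.Blo
import Pool.Agent.LGN.Ap

/-!
# The linear range: iteration

Helper33, for MP_0707f5_ag (the linear range of helper35).
-/

set_option autoImplicit false

namespace Pool.Agent.EKL

open Module
open SpQ (Hd Good WExt)
open LGC (It hl GI Kl IReach cls)
open LGP (cyc prR)
open NLG (Full Ess Ys Sp)

section
variable {Γ : Type} [Group Γ] {k r : ℕ}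

/-- the states: `X ++ hl (B ++ (Q ++ P₁))` -/
private def Sta (N : Subgroup Γ) (ρ₁ ρ₂ : N →* GL (Fin r) ℂ) (P₁ : List (Hd Γ k))
    (Y : List (It Γ k)) (c : ℕ) (X : List (It Γ k)) (B Q : List (Hd Γ k)) : Prop :=
  IReach Y (X ++ hl (B ++ (Q ++ P₁))) ∧ (∀ h ∈ B, Kl N h) ∧ (∀ h ∈ Q ++ P₁, Kl N h) ∧
    Full N (prR ρ₁ ρ₂) X B ∧ B.length + Q.length = c

/-- one step -/
private theorem stepp (hA : LGC.St_All) (hG : LGC.St_Gek) (N : Subgroup Γ) [N.Normal]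
    (ρ₁ ρ₂ : N →* GL (Fin r) ℂ)
    (h1 : Pool.Agent.HZ.Irr ρ₁.range) (h2 : Pool.Agent.HZ.Irr ρ₂.range)
    (P₁ : List (Hd Γ k)) (hP₁ : Full N (prR ρ₁ ρ₂) [] P₁) (hkP₁ : ∀ h ∈ P₁, Kl N h)
    (hP₁l : 9 * r ≤ P₁.length)
    (Y : List (It Γ k)) (c : ℕ) (w : Matrix (Fin r) (Fin r) ℂ × Matrix (Fin r) (Fin r) ℂ)
    (X : List (It Γ k)) (B Q : List (Hd Γ k)) (hs : Sta N ρ₁ ρ₂ P₁ Y c X B Q)
    (t : ℕ) (ht : 8 * t < r) (hlB : 8 * (r - 1) + 1 + 2 * r + 2 + 8 * t ≤ B.length)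
    (hd : finrank ℂ (Sp N (prR ρ₁ ρ₂) w (Q ++ P₁)) + 4 * t < finrank ℂ (cyc (prR ρ₁ ρ₂) w ⊤)) :
    ∃ (X' : List (It Γ k)) (B' Q' : List (Hd Γ k)), Sta N ρ₁ ρ₂ P₁ Y c X' B' Q' ∧
      Q'.length = Q.length + 1 ∧
      finrank ℂ (Sp N (prR ρ₁ ρ₂) w (Q ++ P₁)) + t + 1 ≤
        finrank ℂ (Sp N (prR ρ₁ ρ₂) w (Q' ++ P₁)) := by
  obtain ⟨s1, s2, s3, s4, s5⟩ := hs
  obtain ⟨X', B', p, e1, e2, e3, e4, hgr⟩ : ∃ (X' : List (It Γ k)) (B' : List (Hd Γ k))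
      (p : Hd Γ k), IReach (X ++ hl B) (X' ++ hl (B' ++ [p])) ∧ (∀ h ∈ B' ++ [p], Kl N h) ∧
      B'.length + 1 = B.length ∧ Full N (prR ρ₁ ρ₂) X' B' ∧
      finrank ℂ (Sp N (prR ρ₁ ρ₂) w (Q ++ P₁)) + t <
      finrank ℂ (Sp N (prR ρ₁ ρ₂) w ([p] ++ (Q ++ P₁))) := by
    by_contra hcon
    push Not at hcon
    have h3 := NLG.gro hA hG (ess N ρ₁ ρ₂ h1 h2) (fun S hS => Stp.compl h1 h2 S hS)
      (fun S hS h0 => Stp.dim h1 h2 S hS h0) w (Q ++ P₁)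
      (fun z hz => (NLG.blo hA hG (ess N ρ₁ ρ₂ h1 h2) P₁ hkP₁ hP₁ z (by omega)).trans
        (NLG.Sp_mono (WExt.drop_left Q P₁))) X B s2 s4 ht (by omega) hcon
    omega
  refine ⟨X', B', [p] ++ Q, ⟨?_, ?_, ?_, e4, ?_⟩, ?_, ?_⟩
  · refine s1.trans ?_
    have h6 := e1.right (LGC.hl (Q ++ P₁))
    rw [NLG.app_ctx, NLG.app_ctx, List.append_assoc] at h6
    rw [List.append_assoc]
    exact h6
  · exact fun h hh => e2 h (List.mem_append_left _ hh)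
  · intro h hh
    rw [List.append_assoc] at hh
    rcases List.mem_append.1 hh with hh | hh
    · exact e2 h (List.mem_append_right _ hh)
    · exact s3 h hh
  · simp only [List.length_append, List.length_singleton]
    omega
  · simp only [List.length_append, List.length_singleton]
    omega
  · rw [List.append_assoc]
    omega

/-- the iteration -/
private theorem iter (hA : LGC.St_All) (hG : LGC.St_Gek) (N : Subgroup Γ) [N.Normal]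
    (ρ₁ ρ₂ : N →* GL (Fin r) ℂ)
    (h1 : Pool.Agent.HZ.Irr ρ₁.range) (h2 : Pool.Agent.HZ.Irr ρ₂.range)
    (P₁ : List (Hd Γ k)) (hP₁ : Full N (prR ρ₁ ρ₂) [] P₁) (hkP₁ : ∀ h ∈ P₁, Kl N h)
    (hP₁l : 9 * r ≤ P₁.length)
    (Y : List (It Γ k)) (c : ℕ) (w : Matrix (Fin r) (Fin r) ℂ × Matrix (Fin r) (Fin r) ℂ)
    (X : List (It Γ k)) (B Q : List (Hd Γ k)) (hs : Sta N ρ₁ ρ₂ P₁ Y c X B Q)
    (t : ℕ) (ht : 8 * t < r) :
    ∀ n : ℕ, Q.length + n + (8 * (r - 1) + 1 + 2 * r + 2 + 8 * t) ≤ c →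
    ∃ (X' : List (It Γ k)) (B' Q' : List (Hd Γ k)), Sta N ρ₁ ρ₂ P₁ Y c X' B' Q' ∧
      Q'.length ≤ Q.length + n ∧
      (finrank ℂ (cyc (prR ρ₁ ρ₂) w ⊤) ≤ finrank ℂ (Sp N (prR ρ₁ ρ₂) w (Q' ++ P₁)) + 4 * t ∨
        finrank ℂ (Sp N (prR ρ₁ ρ₂) w (Q ++ P₁)) + n * (t + 1) ≤
          finrank ℂ (Sp N (prR ρ₁ ρ₂) w (Q' ++ P₁))) := by
  intro n
  induction n with
  | zero =>
    intro _
    exact ⟨X, B, Q, hs, by omega, Or.inr (by omega)⟩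
  | succ n ih =>
    intro hn
    obtain ⟨X', B', Q', s1, s2, s3⟩ := ih (by omega)
    by_cases hdone : finrank ℂ (cyc (prR ρ₁ ρ₂) w ⊤) ≤
        finrank ℂ (Sp N (prR ρ₁ ρ₂) w (Q' ++ P₁)) + 4 * t
    · exact ⟨X', B', Q', s1, by omega, Or.inl hdone⟩
    · have s3' := s3.resolve_left hdone
      have hlen := s1.2.2.2.2
      obtain ⟨X'', B'', Q'', u1, u2, u3⟩ := stepp hA hG N ρ₁ ρ₂ h1 h2 P₁ hP₁ hkP₁ hP₁l Y c w X' B' Q'
        s1 t ht (by omega) (by omega)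
      refine ⟨X'', B'', Q'', u1, by omega, Or.inr ?_⟩
      have e : (n + 1) * (t + 1) = n * (t + 1) + (t + 1) := by ring
      omega

/-- **the linear range** -/
theorem vkk (hA : LGC.St_All) (hG : LGC.St_Gek) :
    LGN.St_Vk fun r => 36 * r := by
  intro Γ _ k r N _ ρ₁ ρ₂ X₀ B₀ hr h1 h2 hB hGI hlen hT x
  have hlen' : 36 * r ≤ B₀.length := hlen
  obtain ⟨w, hw⟩ : ∃ w : Matrix (Fin r) (Fin r) ℂ × Matrix (Fin r) (Fin r) ℂ, w = (1, 1) := ⟨_, rfl⟩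
  have hf : Full N (prR ρ₁ ρ₂) X₀ B₀ := by
    intro v
    rw [hGI, Subgroup.top_subgroupOf]
  -- the block
  obtain ⟨X₁, B₁, P₁, a1, -, a3, a4, a5, a6, a7, a8⟩ := pone hA hG N ρ₁ ρ₂ h1 h2 X₀ B₀ hB hf
    (9 * r) (by omega) (by omega)
  have hs₁ : Sta N ρ₁ ρ₂ P₁ (X₀ ++ hl B₀) (B₀.length - 9 * r) X₁ B₁ [] :=
    ⟨a1, fun h hh => a6 h (List.mem_append_left _ hh),
      fun h hh => a6 h (List.mem_append_right _ hh), a8, by
        rw [List.length_nil]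
        omega⟩
  have hdim : finrank ℂ (cyc (prR ρ₁ ρ₂) w ⊤) ≤ 2 * (r * r) := by
    rw [hw]
    have h3 := LGP.finrank_cyc_le ρ₁ ρ₂ 1 ⊤
    rwa [Matrix.rank_one, Fintype.card_fin] at h3
  -- large growth
  obtain ⟨t, ht⟩ : ∃ t, t = (r - 1) / 8 := ⟨_, rfl⟩
  have ht1 : 8 * t < r := by omega
  have ht2 : r ≤ 8 * (t + 1) := by omega
  obtain ⟨X₂, B₂, Q₂, b1, b2, b3⟩ := iter hA hG N ρ₁ ρ₂ h1 h2 P₁ a7
    (fun h hh => a6 h (List.mem_append_right _ hh)) (by omega) _ _ w X₁ B₁ []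
    hs₁ t ht1 (16 * r) (by
      rw [List.length_nil]
      omega)
  have b4 : finrank ℂ (cyc (prR ρ₁ ρ₂) w ⊤) ≤
      finrank ℂ (Sp N (prR ρ₁ ρ₂) w (Q₂ ++ P₁)) + 4 * t := by
    rcases b3 with h | h
    · exact h
    · have h3 : 2 * (r * r) ≤ 16 * r * (t + 1) := by
        have h4 : r * r ≤ r * (8 * (t + 1)) := Nat.mul_le_mul_left r ht2
        have h5 : 16 * r * (t + 1) = 2 * (r * (8 * (t + 1))) := by ring
        omega
      omega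
  -- small growth
  rw [List.length_nil] at b2
  obtain ⟨X₃, B₃, Q₃, c1, c2, c3⟩ := iter hA hG N ρ₁ ρ₂ h1 h2 P₁ a7
    (fun h hh => a6 h (List.mem_append_right _ hh)) (by omega) _ _ w X₂ B₂ Q₂
    b1 0 (by omega) (4 * t) (by omega)
  have c4 : finrank ℂ (cyc (prR ρ₁ ρ₂) w ⊤) ≤
      finrank ℂ (Sp N (prR ρ₁ ρ₂) w (Q₃ ++ P₁)) := by
    rcases c3 with h | h
    · omega
    · omega
  have c5 : Sp N (prR ρ₁ ρ₂) w (Q₃ ++ P₁) = cyc (prR ρ₁ ρ₂) w ⊤ :=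
    Submodule.eq_of_le_of_finrank_le (NLG.Sp_le_cyc w (Q₃ ++ P₁)) c4
  obtain ⟨d1, d2, d3, -, d5⟩ := c1
  -- a killed handle with a first component of weight zero
  obtain ⟨B₄, q, rfl⟩ : ∃ B₄ q, B₃ = B₄ ++ [q] := by
    rcases List.eq_nil_or_concat B₃ with h | ⟨B₄, q, h⟩
    · subst h
      rw [List.length_nil] at d5
      omega
    · exact ⟨B₄, q, by rw [h, List.concat_eq_append]⟩
  obtain ⟨p, hp, hz⟩ := SpQ.exists_zero q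
  have hkq : Kl N q := d2 q (by simp)
  have hkp : Kl N p := by
    rw [LGC.Kl_iff, hp.E_eq, ← LGC.Kl_iff]
    exact hkq
  have hkP : ∀ h ∈ p :: (Q₃ ++ P₁), Kl N h := by
    intro h hh
    rcases List.mem_cons.1 hh with rfl | hh
    · exact hkp
    · exact d3 h hh
  have hreach : IReach (X₀ ++ hl B₀) ((X₃ ++ hl B₄) ++ hl (p :: (Q₃ ++ P₁))) := by
    refine d1.trans ?_
    have h3 := IReach.of_wreach' hp (X₃ ++ hl B₄) (hl (Q₃ ++ P₁))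
    have e1 : ∀ x : Hd Γ k, X₃ ++ hl B₄ ++ (hl [x] ++ hl (Q₃ ++ P₁)) =
        X₃ ++ hl B₄ ++ hl (x :: (Q₃ ++ P₁)) := by
      intro x
      rw [← LGC.hl_append]
      rfl
    rw [e1, e1] at h3
    have e2 : X₃ ++ hl (B₄ ++ [q] ++ (Q₃ ++ P₁)) = X₃ ++ hl B₄ ++ hl (q :: (Q₃ ++ P₁)) := by
      rw [List.append_assoc, LGC.hl_append, ← List.append_assoc]
      rfl
    rw [e2]
    exact h3
  obtain ⟨⟨γ, δ⟩, ⟨z, o⟩⟩ := p
  dsimp only at hz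
  subst hz
  have hγN : γ ∈ N := hkp.1
  have hγ : γ ∈ SpQ.fc [((γ, δ), ((0 : ZMod k), o))] 0 := ⟨δ, o, WExt.refl _⟩
  have htr : ∀ (y : Γ) (hy : y ∈ N), y ∈ SpQ.fc (((γ, δ), ((0 : ZMod k), o)) :: (Q₃ ++ P₁)) 0 →
      LGP.dtr r (prR ρ₁ ρ₂ ⟨y, hy⟩ w) = 0 := by
    intro y hy hyf
    rw [hw, LGP.prR_apply, LGP.dtr_apply, mul_one, mul_one, hT _ _ hreach hkP y hy hyf, sub_self]
  have hall : ∀ u ∈ Sp N (prR ρ₁ ρ₂) w (Q₃ ++ P₁),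
      LGP.dtr r (prR ρ₁ ρ₂ ⟨γ, hγN⟩ u) = 0 := by
    intro u hu
    unfold NLG.Sp at hu
    refine Submodule.span_induction
      (p := fun u _ => LGP.dtr r (prR ρ₁ ρ₂ ⟨γ, hγN⟩ u) = 0) ?_ ?_ ?_ ?_ hu
    · rintro u (rfl | ⟨y, hy, rfl⟩)
      · exact htr γ hγN (SpQ.fc_mono (WExt.drop_right [((γ, δ), ((0 : ZMod k), o))] _) _ hγ)
      · rw [← Module.End.mul_apply, ← map_mul]
        have h3 := SpQ.fc_mul hγ hy
        have e5 : (0 : ZMod k) + -1 + 1 = 0 := by ring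
        rw [e5] at h3
        exact htr (γ * y) (N.mul_mem hγN y.2) h3
    · rw [map_zero, map_zero]
    · intro a b _ _ ha hb
      rw [map_add, map_add, ha, hb, add_zero]
    · intro c a _ ha
      rw [map_smul, map_smul, ha, smul_zero]
  have h3 := hall (prR ρ₁ ρ₂ (⟨γ, hγN⟩⁻¹ * x) w) (by
    rw [c5]
    exact Submodule.subset_span ⟨_, Subgroup.mem_top _, rfl⟩)
  rw [← Module.End.mul_apply, ← map_mul, mul_inv_cancel_left, hw, LGP.prR_apply, LGP.dtr_apply,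
    mul_one, mul_one] at h3
  exact sub_eq_zero.1 h3

end

end Pool.Agent.EKL
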