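import Pool.Agent.EKL.Lst

/-!
# Full lists of killed handles

Helper33, for MP_0707f5_ag (the near-linear range of helper21).
-/

set_option autoImplicit false

namespace Pool.Agent.EKL

open Module
open SpQ (Hd cj1)
open LGC (It hl GI Kl)
open LGP (cyc prR)

section ful
variable {Γ : Type} [Group Γ] {k r : ℕ}

/-- the pair of the endomorphisms -/
noncomputable def prE {G : Type} [Group G] (ρ₁ ρ₂ : G →* GL (Fin r) ℂ) :
    G →* Module.End ℂ (Fin r → ℂ) × Module.End ℂ (Fin r → ℂ) :=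
  ((Matrix.toLinAlgEquiv' (R := ℂ) (n := Fin r) :
    Matrix (Fin r) (Fin r) ℂ →* Module.End ℂ (Fin r → ℂ)).comp
      ((Units.coeHom (Matrix (Fin r) (Fin r) ℂ)).comp ρ₁)).prod
  ((Matrix.toLinAlgEquiv' (R := ℂ) (n := Fin r) :
    Matrix (Fin r) (Fin r) ℂ →* Module.End ℂ (Fin r → ℂ)).comp
      ((Units.coeHom (Matrix (Fin r) (Fin r) ℂ)).comp ρ₂))

theorem prE_fst {G : Type} [Group G] (ρ₁ ρ₂ : G →* GL (Fin r) ℂ) (x : G) (v : Fin r → ℂ) :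
    (prE ρ₁ ρ₂ x).1 v = (ρ₁ x : Matrix (Fin r) (Fin r) ℂ).mulVec v := rfl

theorem prE_snd {G : Type} [Group G] (ρ₁ ρ₂ : G →* GL (Fin r) ℂ) (x : G) (v : Fin r → ℂ) :
    (prE ρ₁ ρ₂ x).2 v = (ρ₂ x : Matrix (Fin r) (Fin r) ℂ).mulVec v := rfl

/-- the linear map which sends a pair of endomorphisms to its action on a pair of matrices -/
noncomputable def actE (w : Matrix (Fin r) (Fin r) ℂ × Matrix (Fin r) (Fin r) ℂ) :
    Module.End ℂ (Fin r → ℂ) × Module.End ℂ (Fin r → ℂ) →ₗ[ℂ]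
      Matrix (Fin r) (Fin r) ℂ × Matrix (Fin r) (Fin r) ℂ :=
  ((LinearMap.mulRight ℂ w.1) ∘ₗ
    (Matrix.toLinAlgEquiv' (R := ℂ) (n := Fin r)).symm.toLinearMap).prodMap
  ((LinearMap.mulRight ℂ w.2) ∘ₗ
    (Matrix.toLinAlgEquiv' (R := ℂ) (n := Fin r)).symm.toLinearMap)

theorem actE_apply {G : Type} [Group G] (ρ₁ ρ₂ : G →* GL (Fin r) ℂ) (x : G)
    (w : Matrix (Fin r) (Fin r) ℂ × Matrix (Fin r) (Fin r) ℂ) :
    actE w (prE ρ₁ ρ₂ x) = prR ρ₁ ρ₂ x w := by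
  obtain ⟨w₁, w₂⟩ := w
  rw [LGP.prR_apply]
  unfold actE prE
  rw [LinearMap.prodMap_apply]
  refine Prod.ext ?_ ?_
  · show (Matrix.toLinAlgEquiv' (R := ℂ) (n := Fin r)).symm
      (Matrix.toLinAlgEquiv' (R := ℂ) (n := Fin r) (ρ₁ x : Matrix (Fin r) (Fin r) ℂ)) * w₁ = _
    rw [AlgEquiv.symm_apply_apply]
  · show (Matrix.toLinAlgEquiv' (R := ℂ) (n := Fin r)).symm
      (Matrix.toLinAlgEquiv' (R := ℂ) (n := Fin r) (ρ₂ x : Matrix (Fin r) (Fin r) ℂ)) * w₂ = _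
    rw [AlgEquiv.symm_apply_apply]

theorem cyc_eq_map {G : Type} [Group G] (ρ₁ ρ₂ : G →* GL (Fin r) ℂ) (H : Subgroup G)
    (w : Matrix (Fin r) (Fin r) ℂ × Matrix (Fin r) (Fin r) ℂ) :
    cyc (prR ρ₁ ρ₂) w H =
      (Submodule.span ℂ (prE ρ₁ ρ₂ '' (H : Set G))).map (actE w) := by
  unfold cyc
  rw [Submodule.map_span, ← Set.image_comp]
  congr 1
  apply Set.image_congr
  intro x _
  exact (actE_apply ρ₁ ρ₂ x w).symm

/-- the module generated by any pair of matrices is the same for `H` and for `G` if and only if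
the algebras are the same -/
theorem full_iff {G : Type} [Group G] (ρ₁ ρ₂ : G →* GL (Fin r) ℂ) (H : Subgroup G) :
    (∀ w, cyc (prR ρ₁ ρ₂) w H = cyc (prR ρ₁ ρ₂) w ⊤) ↔
      alg ℂ (prE ρ₁ ρ₂) H = alg ℂ (prE ρ₁ ρ₂) ⊤ := by
  have h1 : alg ℂ (prE ρ₁ ρ₂) H = alg ℂ (prE ρ₁ ρ₂) ⊤ ↔
      Submodule.span ℂ (prE ρ₁ ρ₂ '' (H : Set G)) =
        Submodule.span ℂ (prE ρ₁ ρ₂ '' ((⊤ : Subgroup G) : Set G)) := by
    constructor
    · intro h
      ext m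
      rw [← mem_alg_iff, ← mem_alg_iff, h]
    · intro h
      ext m
      rw [mem_alg_iff, mem_alg_iff, h]
  rw [h1]
  constructor
  · intro h
    have h2 := h (1, 1)
    rw [cyc_eq_map, cyc_eq_map] at h2
    refine Submodule.map_injective_of_injective ?_ h2
    intro p q hpq
    unfold actE at hpq
    rw [LinearMap.prodMap_apply, LinearMap.prodMap_apply] at hpq
    have h3 := congrArg Prod.fst hpq
    have h4 := congrArg Prod.snd hpq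
    have h5 : (Matrix.toLinAlgEquiv' (R := ℂ) (n := Fin r)).symm p.1 * 1 =
      (Matrix.toLinAlgEquiv' (R := ℂ) (n := Fin r)).symm q.1 * 1 := h3
    have h6 : (Matrix.toLinAlgEquiv' (R := ℂ) (n := Fin r)).symm p.2 * 1 =
      (Matrix.toLinAlgEquiv' (R := ℂ) (n := Fin r)).symm q.2 * 1 := h4
    rw [mul_one, mul_one] at h5 h6
    exact Prod.ext ((Matrix.toLinAlgEquiv' (R := ℂ) (n := Fin r)).symm.injective h5)
      ((Matrix.toLinAlgEquiv' (R := ℂ) (n := Fin r)).symm.injective h6)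
  · intro h w
    rw [cyc_eq_map, cyc_eq_map, h]

/-- stable subspaces for an algebra are stable for the larger group with the same algebra -/
theorem irr_of_alg {G : Type} [Group G] (ρ₁ ρ₂ : G →* GL (Fin r) ℂ) (H : Subgroup G)
    (h : alg ℂ (prE ρ₁ ρ₂) H = alg ℂ (prE ρ₁ ρ₂) ⊤)
    (h1 : Pool.Agent.HZ.Irr ρ₁.range) (h2 : Pool.Agent.HZ.Irr ρ₂.range) :
    (∀ W : Submodule ℂ (Fin r → ℂ), (∀ x ∈ H, ∀ v ∈ W, (prE ρ₁ ρ₂ x).1 v ∈ W) →
      W = ⊥ ∨ W = ⊤) ∧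
    (∀ W : Submodule ℂ (Fin r → ℂ), (∀ x ∈ H, ∀ v ∈ W, (prE ρ₁ ρ₂ x).2 v ∈ W) →
      W = ⊥ ∨ W = ⊤) := by
  constructor
  · intro W hW
    refine h1 W ?_
    rintro _ ⟨y, rfl⟩ v hv
    have h3 : alg ℂ (prE ρ₁ ρ₂) H ≤ (stb W).comap
        (AlgHom.fst ℂ (Module.End ℂ (Fin r → ℂ)) (Module.End ℂ (Fin r → ℂ))) := by
      unfold alg
      rw [Algebra.adjoin_le_iff]
      rintro _ ⟨x, hx, rfl⟩
      exact hW x hx
    rw [h] at h3
    exact h3 (mem_alg (K := ℂ) (prE ρ₁ ρ₂) (Subgroup.mem_top y)) v hv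
  · intro W hW
    refine h2 W ?_
    rintro _ ⟨y, rfl⟩ v hv
    have h3 : alg ℂ (prE ρ₁ ρ₂) H ≤ (stb W).comap
        (AlgHom.snd ℂ (Module.End ℂ (Fin r → ℂ)) (Module.End ℂ (Fin r → ℂ))) := by
      unfold alg
      rw [Algebra.adjoin_le_iff]
      rintro _ ⟨x, hx, rfl⟩
      exact hW x hx
    rw [h] at h3
    exact h3 (mem_alg (K := ℂ) (prE ρ₁ ρ₂) (Subgroup.mem_top y)) v hv

/-- **a long full list of killed handles contains a spare handle** -/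
theorem spare_full (N : Subgroup Γ) [N.Normal] (ρ₁ ρ₂ : N →* GL (Fin r) ℂ)
    (h1 : Pool.Agent.HZ.Irr ρ₁.range) (h2 : Pool.Agent.HZ.Irr ρ₂.range)
    (X : List (It Γ k)) (B : List (Hd Γ k)) (hB : ∀ h ∈ B, Kl N h)
    (hful : ∀ w, cyc (prR ρ₁ ρ₂) w ((GI (X ++ hl B)).subgroupOf N) = cyc (prR ρ₁ ρ₂) w ⊤)
    (hlen : 8 * (r - 1) + 1 < B.length) :
    ∃ (s : List (Hd Γ k)) (p : Hd Γ k) (t : List (Hd Γ k)), B = s ++ p :: t ∧
      ∀ w, cyc (prR ρ₁ ρ₂) w ((GI (X ++ hl (s ++ t))).subgroupOf N) =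
        cyc (prR ρ₁ ρ₂) w ⊤ := by
  rcases Nat.eq_zero_or_pos r with hr | hr
  · subst hr
    obtain ⟨p, t, rfl⟩ : ∃ p t, B = p :: t := by
      cases B with
      | nil =>
        rw [List.length_nil] at hlen
        omega
      | cons a b => exact ⟨a, b, rfl⟩
    exact ⟨[], p, t, rfl, fun w => Subsingleton.elim _ _⟩
  have : Nonempty (Fin r) := ⟨⟨0, hr⟩⟩
  rw [full_iff] at hful
  obtain ⟨i1, i2⟩ := irr_of_alg ρ₁ ρ₂ _ hful h1 h2
  obtain ⟨s, p, t, e, h3⟩ := spare N (prE ρ₁ ρ₂) X B hB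
    (fun W hW => i1 W fun x hx v hv => hW x (Subgroup.mem_subgroupOf.1 hx) v hv)
    (fun W hW => i2 W fun x hx v hv => hW x (Subgroup.mem_subgroupOf.1 hx) v hv)
    (by
      rw [Module.finrank_fin_fun]
      omega)
  exact ⟨s, p, t, e, (full_iff ρ₁ ρ₂ _).2 (h3.trans hful)⟩

end ful

end Pool.Agent.EKL
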