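import Pool.Agent.EKL.Two

/-!
# Irreducible restrictions, dynamic form

Helper33, for MP_0707f5_ag (the near-linear range of helper21).  The states are the systems of
handles, `nx s t` means that `t` is obtained from `s` by the addition of a spare handle.
-/

set_option autoImplicit false

namespace Pool.Agent.EKL

open Module Relation

section dyn
variable {K V σ : Type*} [Field K] [AddCommGroup V] [Module K V] [FiniteDimensional K V]

omit [FiniteDimensional K V] in
theorem rtg_mono {A : σ → Subalgebra K (Module.End K V)} {nx : σ → σ → Prop}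
    (hm : ∀ s t, nx s t → A s ≤ A t) {s t : σ} (h : ReflTransGen nx s t) : A s ≤ A t := by
  induction h with
  | refl => exact le_rfl
  | tail _ h1 ih => exact ih.trans (hm _ _ h1)

/-- **the key lemma, dynamic form** -/
theorem dyn [IsAlgClosed K] [Nontrivial V] (A : σ → Subalgebra K (Module.End K V))
    (A' : Subalgebra K (Module.End K V)) (lev : σ → ℕ) (nx : σ → σ → Prop) (M : ℕ) (s₀ : σ)
    (hlev : ∀ s t, nx s t → lev t = lev s + 1) (hm : ∀ s t, nx s t → A s ≤ A t)
    (hg : ∀ s, ReflTransGen nx s₀ s → lev s < M → ∀ T : Subalgebra K (Module.End K V),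
      (∀ t, nx s t → A t ≤ T) → A' ≤ T)
    (hi : ∀ W, St A' W → W = ⊥ ∨ W = ⊤)
    (hM : lev s₀ + (4 * (finrank K V - 1) + 2) ≤ M) :
    ∃ s, ReflTransGen nx s₀ s ∧ lev s ≤ lev s₀ + 4 * (finrank K V - 1) ∧ A' ≤ A s := by
  set d := finrank K V with hd
  have hd1 : 1 ≤ d := Module.finrank_pos
  let Φ : σ → ℕ := fun I => len (A I) + gol (A I)
  have hΦ1 : ∀ I, 2 ≤ Φ I := fun I => by
    have h1 := one_le_len (A I)
    have h2 := one_le_gol (A I)
    show 2 ≤ len (A I) + gol (A I)
    omega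
  have hΦ2 : ∀ I, Φ I ≤ 2 * d := fun I => by
    have h1 := len_le (A I)
    have h2 := gol_le (A I)
    show len (A I) + gol (A I) ≤ 2 * d
    omega
  -- a minimum
  obtain ⟨s, hs, hmin⟩ : ∃ s, ReflTransGen nx s₀ s ∧ ∀ t, ReflTransGen nx s₀ t →
      (2 * Φ s + lev s) * (2 * d + 1) + Φ s ≤ (2 * Φ t + lev t) * (2 * d + 1) + Φ t := by
    obtain ⟨s, hs, hmin⟩ := WellFounded.has_min
      (InvImage.wf (fun t => (2 * Φ t + lev t) * (2 * d + 1) + Φ t) Nat.lt_wfRel.wf)
      {t | ReflTransGen nx s₀ t} ⟨s₀, ReflTransGen.refl⟩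
    exact ⟨s, hs, fun t ht => not_lt.1 (hmin t ht)⟩
  have hcard : lev s ≤ lev s₀ + 4 * (d - 1) := by
    have h1 := hmin s₀ ReflTransGen.refl
    have h2 := hΦ1 s
    have h3 := hΦ2 s₀
    have h4 : (2 * Φ s + lev s) ≤ 2 * Φ s₀ + lev s₀ := by
      by_contra hcon
      push Not at hcon
      have h5 : (2 * Φ s₀ + lev s₀ + 1) * (2 * d + 1) ≤ (2 * Φ s + lev s) * (2 * d + 1) :=
        Nat.mul_le_mul_right _ hcon
      have h6 : (2 * Φ s₀ + lev s₀ + 1) * (2 * d + 1) =
        (2 * Φ s₀ + lev s₀) * (2 * d + 1) + (2 * d + 1) := by ring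
      omega
    omega
  -- the potential is constant near `s`
  have hconst : ∀ t, ReflTransGen nx s t → lev t ≤ lev s + 2 →
      len (A t) = len (A s) ∧ gol (A t) = gol (A s) := by
    intro t hst htc
    have h1 := hmin t (hs.trans hst)
    have h2 : Φ s ≤ Φ t := by
      by_contra hcon
      push Not at hcon
      have h3 : 2 * Φ t + lev t ≤ 2 * Φ s + lev s := by omega
      have h4 := Nat.mul_le_mul_right (2 * d + 1) h3
      omega
    have h3 := len_anti (rtg_mono hm hst)
    have h4 := gol_anti (rtg_mono hm hst)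
    have h5 : len (A s) + gol (A s) ≤ len (A t) + gol (A t) := h2
    omega
  refine ⟨s, hs, hcard, ?_⟩
  -- stability
  have hst_of : ∀ u, ReflTransGen nx s u → lev u ≤ lev s + 1 → ∀ W : Submodule K V,
      (∀ t, nx u t → St (A t) W) → St A' W := by
    intro u hu hul W hW
    exact hg u (hs.trans hu) (by omega) (stb W) hW
  -- everything is semisimple
  have hsoc : ∀ u, ReflTransGen nx s u → lev u ≤ lev s + 1 → ∀ t, nx u t →
      ∃ n, Ind (Smp (A t)) n ⊤ := by
    intro u hsu hul t hut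
    obtain ⟨S₀, hS₀⟩ := gol_spec (A u)
    obtain ⟨S, -, hS⟩ := hS₀.smp
    have hS1 : Ind (St (A u)) (gol (A u)) S := hS.mono fun E hE => hE.1
    have key : ∀ t, nx u t → ∃ n, Ind (Smp (A t)) n S := by
      intro t hut
      obtain ⟨e1, e2⟩ := hconst u hsu (by omega)
      obtain ⟨e3, e4⟩ := hconst t (hsu.tail hut) (by rw [hlev u t hut]; omega)
      have hle : A u ≤ A t := hm u t hut
      obtain ⟨S₁, hS₁⟩ := gol_spec (A t)
      obtain ⟨S', -, hS'⟩ := hS₁.smp
      have hsm : ∀ E, Smp (A t) E → Smp (A u) E := fun E hE =>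
        hE.of_len hle (e1.trans e3.symm)
      have hS2 : Ind (St (A u)) (gol (A u)) S' := by
        rw [e2, ← e4]
        exact hS'.mono fun E hE => (hsm E hE).1
      have h1 : S ≤ S' := hS.le fun E hE => le_of_max hS2 hE
      have h2 : S' ≤ S := (hS'.mono hsm).le fun E hE => le_of_max hS1 hE
      rw [le_antisymm h1 h2]
      exact ⟨_, hS'⟩
    have hst : St A' S := by
      refine hst_of u hsu hul S fun j hj => ?_
      obtain ⟨n, hn⟩ := key j hj
      exact (hn.mono fun E hE => hE.1).st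
    have htop : S = ⊤ := by
      refine (hi S hst).resolve_left fun h0 => ?_
      have h1 := hS1.le_finrank
      rw [h0, finrank_bot] at h1
      have h2 := one_le_gol (A u)
      omega
    rw [← htop]
    exact key t hut
  refine hg s hs (by omega) (A s) fun t hst => ?_
  have hlt : lev t = lev s + 1 := hlev s t hst
  have hst' : ReflTransGen nx s t := ReflTransGen.single hst
  have hle : A s ≤ A t := hm s t hst
  obtain ⟨E, -, hE⟩ := exists_smp (St.top (A t)) top_ne_bot
  have hEI : Smp (A s) E := hE.of_len hle (hconst t hst' (by omega)).1.symm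
  -- the annihilated subspace
  let T : Set (Module.End K V) := {a | a ∈ A t ∧ ∀ v ∈ E, a v = 0}
  let X : Submodule K V :=
    { carrier := {v | ∀ t ∈ T, t v = 0}
      add_mem' := fun {v w} hv hw t ht => by rw [map_add, hv t ht, hw t ht, add_zero]
      zero_mem' := fun t _ => map_zero t
      smul_mem' := fun c v hv t ht => by rw [map_smul, hv t ht, smul_zero] }
  have hX : St (A t) X := by
    intro b hb v hv a ha
    have h1 : a * b ∈ T := ⟨(A t).mul_mem ha.1 hb, fun w hw => ha.2 _ (hE.1 hb w hw)⟩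
    exact hv _ h1
  have hEX : E ≤ X := fun v hv a ha => ha.2 v hv
  have hXB : St A' X := by
    refine hst_of t hst' (by omega) X fun k hk => ?_
    obtain ⟨n, hn⟩ := hsoc t hst' (by omega) k hk
    have h1 := ann_stable (hm t k hk) (fun E hE => hE.of_len (hm t k hk) ?_) X hX T
      (fun a ha => ha.1) (fun v => Iff.rfl) hn
    · rwa [top_inf_eq] at h1
    · have h2 := hconst t hst' (by omega)
      have h3 := hconst k (hst'.tail hk) (by rw [hlev t k hk]; omega)
      exact h2.1.trans h3.1.symm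
  have hXtop : X = ⊤ := (hi X hXB).resolve_left fun h0 => hE.2.1 (by
    rw [eq_bot_iff, ← h0]
    exact hEX)
  intro a ha
  obtain ⟨a', ha', h1⟩ := hEI.dense (a.restrict fun v hv => hE.1 ha v hv)
  have h2 : a - a' ∈ T := by
    refine ⟨(A t).sub_mem ha (hle ha'), fun v hv => ?_⟩
    have h3 := h1 ⟨v, hv⟩
    rw [LinearMap.sub_apply, sub_eq_zero]
    exact h3.symm
  have h3 : a = a' := by
    ext v
    have h4 : v ∈ X := by
      rw [hXtop]
      trivial
    have h5 := h4 _ h2
    rw [LinearMap.sub_apply, sub_eq_zero] at h5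
    exact h5
  rw [h3]
  exact ha'

end dyn

section dyn2
variable {K V₁ V₂ σ : Type*} [Field K] [IsAlgClosed K] [AddCommGroup V₁] [Module K V₁]
  [FiniteDimensional K V₁] [Nontrivial V₁] [AddCommGroup V₂] [Module K V₂]
  [FiniteDimensional K V₂] [Nontrivial V₂]

theorem rtg_mono' {R : Type*} [Preorder R] {A : σ → R} {nx : σ → σ → Prop}
    (hm : ∀ s t, nx s t → A s ≤ A t) {s t : σ} (h : ReflTransGen nx s t) : A s ≤ A t := by
  induction h with
  | refl => exact le_rfl
  | tail _ h1 ih => exact ih.trans (hm _ _ h1)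

/-- **the key lemma for two representations, dynamic form** -/
theorem dyn2 (A : σ → Subalgebra K (Module.End K V₁ × Module.End K V₂))
    (A' : Subalgebra K (Module.End K V₁ × Module.End K V₂))
    (lev : σ → ℕ) (nx : σ → σ → Prop) (M : ℕ) (s₀ : σ)
    (hlev : ∀ s t, nx s t → lev t = lev s + 1) (hm : ∀ s t, nx s t → A s ≤ A t)
    (hg : ∀ s, ReflTransGen nx s₀ s → lev s < M →
      ∀ T : Subalgebra K (Module.End K V₁ × Module.End K V₂),
      (∀ t, nx s t → A t ≤ T) → A' ≤ T)
    (h1 : ∀ W, St (A'.map (AlgHom.fst K (Module.End K V₁) (Module.End K V₂))) W → W = ⊥ ∨ W = ⊤)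
    (h2 : ∀ W, St (A'.map (AlgHom.snd K (Module.End K V₁) (Module.End K V₂))) W → W = ⊥ ∨ W = ⊤)
    (hM : lev s₀ + (4 * (finrank K V₁ - 1) + 4 * (finrank K V₂ - 1) + 2) ≤ M) :
    ∃ s, ReflTransGen nx s₀ s ∧
      lev s ≤ lev s₀ + (4 * (finrank K V₁ - 1) + 4 * (finrank K V₂ - 1) + 1) ∧ A' ≤ A s := by
  have ht₁ := eq_top_of_irr h1
  have ht₂ := eq_top_of_irr h2
  obtain ⟨s₁, hs₁, hl₁, he₁⟩ := dyn
    (fun s => (A s).map (AlgHom.fst K (Module.End K V₁) (Module.End K V₂)))
    (A'.map (AlgHom.fst K (Module.End K V₁) (Module.End K V₂))) lev nx M s₀ hlev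
    (fun s t hst => Subalgebra.map_mono (hm s t hst))
    (fun s hs hsM T hT => by
      rw [Subalgebra.map_le]
      exact hg s hs hsM _ fun t ht => Subalgebra.map_le.1 (hT t ht)) h1 (by omega)
  obtain ⟨s₂, hs₂, hl₂, he₂⟩ := dyn
    (fun s => (A s).map (AlgHom.snd K (Module.End K V₁) (Module.End K V₂)))
    (A'.map (AlgHom.snd K (Module.End K V₁) (Module.End K V₂))) lev nx M s₁ hlev
    (fun s t hst => Subalgebra.map_mono (hm s t hst))
    (fun s hs hsM T hT => by
      rw [Subalgebra.map_le]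
      exact hg s (hs₁.trans hs) hsM _ fun t ht => Subalgebra.map_le.1 (hT t ht)) h2 (by omega)
  have hf : (A s₂).map (AlgHom.fst K (Module.End K V₁) (Module.End K V₂)) = ⊤ := by
    rw [eq_top_iff, ← ht₁]
    exact he₁.trans (Subalgebra.map_mono (rtg_mono' hm hs₂))
  have hs : (A s₂).map (AlgHom.snd K (Module.End K V₁) (Module.End K V₂)) = ⊤ := by
    rw [eq_top_iff, ← ht₂]
    exact he₂
  by_cases hall : ∀ t, nx s₂ t → A t ≤ A s₂
  · exact ⟨s₂, hs₁.trans hs₂, by omega, hg s₂ (hs₁.trans hs₂) (by omega) _ hall⟩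
  · push Not at hall
    obtain ⟨t, ht, hne⟩ := hall
    have h3 : A t = ⊤ := goursat (hm s₂ t ht) hf hs fun h => hne h.ge
    refine ⟨t, (hs₁.trans hs₂).tail ht, ?_, ?_⟩
    · rw [hlev s₂ t ht]
      omega
    · rw [h3]
      exact le_top

end dyn2

end Pool.Agent.EKL
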