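import Pool.Agent.EKL.Lst
import Pool.Agent.EKL.Dyn
import Pool.Agent.LGC.Cls

/-!
# A bounded number of killed handles has the full algebra

Helper33, for MP_0707f5_ag (the near-linear range of helper21).  The context is not needed: in a
suitable system `P` has at most `4 (d₁ - 1) + 4 (d₂ - 1) + 1` handles, the group of the entries of `P`
has the algebra of `N`, and the rest of the system, with the context, has it as well.
-/

set_option autoImplicit false

namespace Pool.Agent.EKL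

open Module Relation
open SpQ (Hd cj1 Good WReach)
open LGC (It hl GI Kl mem_hl GI_mono mem_GI IReach cls Kl_list Kl_iff GI_append_hl hl_append)

section grf
variable {K V₁ V₂ : Type*} [Field K] [IsAlgClosed K] [AddCommGroup V₁] [Module K V₁]
  [FiniteDimensional K V₁] [Nontrivial V₁] [AddCommGroup V₂] [Module K V₂]
  [FiniteDimensional K V₂] [Nontrivial V₂] {Γ : Type} [Group Γ] {k : ℕ}

/-- the algebra of a subgroup of `Γ` is the algebra of `N` -/
def Fl {N : Subgroup Γ} (R : N →* Module.End K V₁ × Module.End K V₂) (H : Subgroup Γ) : Prop :=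
  alg K R (H.subgroupOf N) = alg K R ⊤

omit [IsAlgClosed K] [FiniteDimensional K V₁] [Nontrivial V₁] [FiniteDimensional K V₂]
  [Nontrivial V₂] in
theorem Fl.mono {N : Subgroup Γ} {R : N →* Module.End K V₁ × Module.End K V₂} {H H' : Subgroup Γ}
    (h : Fl R H) (hH : H ≤ H') : Fl R H' := by
  refine le_antisymm (alg_mono R le_top) ?_
  have h1 : alg K R (H.subgroupOf N) = alg K R ⊤ := h
  rw [← h1]
  exact alg_mono R (Subgroup.comap_mono hH)

/-- irreducibility of the two components -/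
def Ir {G : Type} [Group G] (R : G →* Module.End K V₁ × Module.End K V₂) : Prop :=
  (∀ W : Submodule K V₁, (∀ x, ∀ v ∈ W, (R x).1 v ∈ W) → W = ⊥ ∨ W = ⊤) ∧
    ∀ W : Submodule K V₂, (∀ x, ∀ v ∈ W, (R x).2 v ∈ W) → W = ⊥ ∨ W = ⊤

omit [IsAlgClosed K] [FiniteDimensional K V₁] [Nontrivial V₁] [FiniteDimensional K V₂]
  [Nontrivial V₂] in
theorem Ir.of_fl {N : Subgroup Γ} {R : N →* Module.End K V₁ × Module.End K V₂} (hi : Ir R)
    {H : Subgroup Γ} (h : Fl R H) :
    (∀ W : Submodule K V₁, (∀ x : N, (x : Γ) ∈ H → ∀ v ∈ W, (R x).1 v ∈ W) → W = ⊥ ∨ W = ⊤) ∧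
    ∀ W : Submodule K V₂, (∀ x : N, (x : Γ) ∈ H → ∀ v ∈ W, (R x).2 v ∈ W) → W = ⊥ ∨ W = ⊤ := by
  have h1 : alg K R (H.subgroupOf N) = alg K R ⊤ := h
  constructor
  · intro W hW
    refine hi.1 W fun y v hv => ?_
    have h3 : alg K R (H.subgroupOf N) ≤ (stb W).comap
        (AlgHom.fst K (Module.End K V₁) (Module.End K V₂)) := by
      unfold alg
      rw [Algebra.adjoin_le_iff]
      rintro _ ⟨x, hx, rfl⟩
      exact hW x (Subgroup.mem_subgroupOf.1 hx)
    rw [h1] at h3
    exact h3 (mem_alg (K := K) R (Subgroup.mem_top y)) v hv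
  · intro W hW
    refine hi.2 W fun y v hv => ?_
    have h3 : alg K R (H.subgroupOf N) ≤ (stb W).comap
        (AlgHom.snd K (Module.End K V₁) (Module.End K V₂)) := by
      unfold alg
      rw [Algebra.adjoin_le_iff]
      rintro _ ⟨x, hx, rfl⟩
      exact hW x (Subgroup.mem_subgroupOf.1 hx)
    rw [h1] at h3
    exact h3 (mem_alg (K := K) R (Subgroup.mem_top y)) v hv

/-- **a long full list contains a spare handle** -/
theorem Fl.spare {N : Subgroup Γ} [N.Normal] {R : N →* Module.End K V₁ × Module.End K V₂}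
    (hi : Ir R) {X : List (It Γ k)} {B : List (Hd Γ k)} (hB : ∀ h ∈ B, Kl N h)
    (hF : Fl R (GI (X ++ hl B)))
    (hlen : 4 * (finrank K V₁ - 1) + 4 * (finrank K V₂ - 1) + 1 < B.length) :
    ∃ (s : List (Hd Γ k)) (p : Hd Γ k) (t : List (Hd Γ k)), B = s ++ p :: t ∧
      Fl R (GI (X ++ hl (s ++ t))) := by
  obtain ⟨i1, i2⟩ := hi.of_fl hF
  obtain ⟨s, p, t, h1, h2⟩ := EKL.spare N R X B hB i1 i2 hlen
  exact ⟨s, p, t, h1, h2.trans hF⟩

/-- a subalgebra which contains the algebras of the spare handles contains the algebra of `N` -/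
theorem Fl.gen (hA : LGC.St_All) (hG : LGC.St_Gek) {N : Subgroup Γ} [N.Normal]
    {R : N →* Module.End K V₁ × Module.End K V₂} (hi : Ir R)
    {X : List (It Γ k)} {B : List (Hd Γ k)} (hgood : ∀ h ∈ B, Good h) (hkl : ∀ h ∈ B, Kl N h)
    (hF : Fl R (GI (X ++ hl B)))
    (hlen : 4 * (finrank K V₁ - 1) + 4 * (finrank K V₂ - 1) + 1 < B.length)
    (T : Subalgebra K (Module.End K V₁ × Module.End K V₂))
    (hT : ∀ (X' : List (It Γ k)) (B₁ : List (Hd Γ k)) (p : Hd Γ k),
      IReach (X ++ hl B) (X' ++ hl (B₁ ++ [p])) → X'.map (cls N) = X.map (cls N) →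
      (∀ h ∈ B₁ ++ [p], Good h) → (∀ h ∈ B₁ ++ [p], Kl N h) → B₁.length + 1 = B.length →
      Fl R (GI (X' ++ hl B₁)) → alg K R ((SpQ.E [p]).subgroupOf N) ≤ T) :
    alg K R ⊤ ≤ T := by
  have hBne : B ≠ [] := by
    intro h0
    rw [h0, List.length_nil] at hlen
    omega
  have key : N ⊓ GI (X ++ hl B) ≤ (sg R T).map N.subtype := by
    refine hG Γ k N X B hBne hgood hkl _ ?_
    intro X'' B'' hr' hcl' hlen' hg' hk'
    have hEN : SpQ.E B'' ≤ N := Kl_list.1 hk'
    have hGI : GI (X'' ++ hl B'') = GI (X ++ hl B) := hr'.GI_eq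
    refine hA Γ k (fun G => Fl R (GI X'' ⊔ G)) B'' _ hg' ?_ ?_
    · intro B₃ hw3 hg3
      have hE3 : SpQ.E B₃ = SpQ.E B'' := hw3.E_eq
      have hk3 : ∀ h ∈ B₃, Kl N h := Kl_list.2 (by rw [hE3]; exact hEN)
      have hGI3 : GI (X'' ++ hl B₃) = GI (X ++ hl B) := by
        rw [GI_append_hl, hE3, ← GI_append_hl, hGI]
      have hlen3 : B₃.length = B''.length := hw3.length_eq
      obtain ⟨s, p, t, h1, h2⟩ := Fl.spare hi hk3 (by rw [hGI3]; exact hF) (by
        rw [hlen3, hlen']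
        exact hlen)
      refine ⟨s, p, t, h1, ?_⟩
      show Fl R (GI X'' ⊔ SpQ.E (s ++ t))
      rw [← GI_append_hl]
      exact h2
    · intro B₃ p hw3 hg3 hfull
      have hfull' : Fl R (GI X'' ⊔ SpQ.E B₃) := hfull
      have hE3 : SpQ.E (B₃ ++ [p]) = SpQ.E B'' := hw3.E_eq
      have hk3 : ∀ h ∈ B₃ ++ [p], Kl N h := Kl_list.2 (by rw [hE3]; exact hEN)
      have hlen3 : (B₃ ++ [p]).length = B''.length := hw3.length_eq
      have h3 := hT X'' B₃ p
        (hr'.trans (by
          have h4 := IReach.of_wreach' hw3 X'' []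
          rwa [List.append_nil, List.append_nil] at h4)) hcl' hg3 hk3
        (by
          rw [List.length_append, List.length_singleton] at hlen3
          rw [hlen3, hlen']) (by rw [GI_append_hl]; exact hfull')
      have hkp : Kl N p := hk3 p (by simp)
      have hEp : SpQ.E [p] ≤ N := Kl_iff.1 hkp
      rw [alg_le_iff] at h3
      intro x hx
      exact ⟨⟨x, hEp hx⟩, h3 (Subgroup.mem_subgroupOf.2 hx), rfl⟩
  have h1 : alg K R ((GI (X ++ hl B)).subgroupOf N) = alg K R ⊤ := hF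
  rw [← h1, alg_le_iff]
  intro z hz
  obtain ⟨y, hy, hyz⟩ := key (Subgroup.mem_inf.2 ⟨z.2, Subgroup.mem_subgroupOf.1 hz⟩)
  have h3 : y = z := Subtype.ext hyz
  rwa [← h3]

/-- the states -/
private abbrev Sta (Γ : Type) (k : ℕ) : Type :=
  List (It Γ k) × List (Hd Γ k) × List (Hd Γ k)

/-- a spare handle is moved to `P` -/
private def nxt {N : Subgroup Γ} (R : N →* Module.End K V₁ × Module.End K V₂)
    (s t : Sta Γ k) : Prop :=
  ∃ p : Hd Γ k, t.2.2 = [p] ++ s.2.2 ∧
    IReach (s.1 ++ hl s.2.1) (t.1 ++ hl (t.2.1 ++ [p])) ∧ t.1.map (cls N) = s.1.map (cls N) ∧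
    (∀ h ∈ t.2.1 ++ [p], Good h) ∧ (∀ h ∈ t.2.1 ++ [p], Kl N h) ∧
    t.2.1.length + 1 = s.2.1.length ∧ Fl R (GI (t.1 ++ hl t.2.1))

/-- **a bounded number of killed handles has the full algebra** -/
theorem grf (hA : LGC.St_All) (hG : LGC.St_Gek) {N : Subgroup Γ} [N.Normal]
    {R : N →* Module.End K V₁ × Module.End K V₂} (hi : Ir R)
    {X : List (It Γ k)} {B : List (Hd Γ k)} (hgood : ∀ h ∈ B, Good h) (hkl : ∀ h ∈ B, Kl N h)
    (hF : Fl R (GI (X ++ hl B)))
    (hlen : 8 * (finrank K V₁ - 1) + 8 * (finrank K V₂ - 1) + 3 ≤ B.length) :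
    ∃ (X' : List (It Γ k)) (B' P : List (Hd Γ k)), IReach (X ++ hl B) (X' ++ hl (B' ++ P)) ∧
      X'.map (cls N) = X.map (cls N) ∧ (∀ h ∈ B' ++ P, Good h) ∧ (∀ h ∈ B' ++ P, Kl N h) ∧
      B'.length + P.length = B.length ∧
      P.length ≤ 4 * (finrank K V₁ - 1) + 4 * (finrank K V₂ - 1) + 1 ∧
      Fl R (SpQ.E P) ∧ Fl R (GI (X' ++ hl B')) := by
  set m := 4 * (finrank K V₁ - 1) + 4 * (finrank K V₂ - 1) + 1 with hm
  let A : Sta Γ k → Subalgebra K (Module.End K V₁ × Module.End K V₂) := fun s =>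
    alg K R ((SpQ.E s.2.2).subgroupOf N)
  let s₀ : Sta Γ k := (X, B, [])
  have hinv : ∀ s, ReflTransGen (nxt R) s₀ s →
      IReach (X ++ hl B) (s.1 ++ hl (s.2.1 ++ s.2.2)) ∧ s.1.map (cls N) = X.map (cls N) ∧
      (∀ h ∈ s.2.1 ++ s.2.2, Good h) ∧ (∀ h ∈ s.2.1 ++ s.2.2, Kl N h) ∧
      s.2.1.length + s.2.2.length = B.length ∧ Fl R (GI (s.1 ++ hl s.2.1)) := by
    intro s hs
    induction hs with
    | refl =>
      refine ⟨?_, rfl, ?_, ?_, ?_, hF⟩
      · show IReach (X ++ hl B) (X ++ hl (B ++ []))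
        rw [List.append_nil]
        exact IReach.refl _
      · show ∀ h ∈ B ++ [], Good h
        rw [List.append_nil]
        exact hgood
      · show ∀ h ∈ B ++ [], Kl N h
        rw [List.append_nil]
        exact hkl
      · show B.length + 0 = B.length
        rw [add_zero]
    | @tail s t _ hst ih =>
      obtain ⟨h1, h2, h3, h4, h5, h6⟩ := ih
      obtain ⟨p, e1, e2, e3, e4, e5, e6, e7⟩ := hst
      refine ⟨?_, e3.trans h2, ?_, ?_, ?_, e7⟩
      · refine h1.trans ?_
        have h7 := e2.right (hl s.2.2)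
        have a1 : s.1 ++ hl s.2.1 ++ hl s.2.2 = s.1 ++ hl (s.2.1 ++ s.2.2) := by
          rw [hl_append, List.append_assoc]
        have a2 : t.1 ++ hl (t.2.1 ++ [p]) ++ hl s.2.2 = t.1 ++ hl (t.2.1 ++ t.2.2) := by
          rw [e1, hl_append, hl_append, hl_append, List.append_assoc, List.append_assoc]
        rwa [a1, a2] at h7
      · intro h hh
        rw [e1, ← List.append_assoc] at hh
        rcases List.mem_append.1 hh with h5 | h5
        · exact e4 h h5
        · exact h3 h (List.mem_append_right _ h5)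
      · intro h hh
        rw [e1, ← List.append_assoc] at hh
        rcases List.mem_append.1 hh with h5 | h5
        · exact e5 h h5
        · exact h4 h (List.mem_append_right _ h5)
      · rw [e1]
        simp only [List.length_append, List.length_singleton]
        omega
  obtain ⟨s, hs, hl1, hl2⟩ := dyn2 A (alg K R ⊤) (fun s => s.2.2.length) (nxt R)
    (B.length - m) s₀
    (by
      rintro s t ⟨p, e1, -⟩
      show t.2.2.length = s.2.2.length + 1
      rw [e1, List.length_append, List.length_singleton]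
      omega)
    (by
      rintro s t ⟨p, e1, -⟩
      refine alg_mono R (Subgroup.comap_mono ?_)
      rw [e1, SpQ.E_append]
      exact le_sup_right)
    (by
      intro s hs hsM T hT
      obtain ⟨h1, h2, h3, h4, h5, h6⟩ := hinv s hs
      have hsM' : s.2.2.length < B.length - m := hsM
      refine Fl.gen hA hG hi (X := s.1) (B := s.2.1)
        (fun h hh => h3 h (List.mem_append_left _ hh))
        (fun h hh => h4 h (List.mem_append_left _ hh)) h6 (by omega) T ?_
      intro X' B₁ p e2 e3 e4 e5 e6 e7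
      refine le_trans (alg_mono R (Subgroup.comap_mono ?_))
        (hT (X', B₁, [p] ++ s.2.2) ⟨p, rfl, e2, e3, e4, e5, e6, e7⟩)
      show SpQ.E [p] ≤ SpQ.E ([p] ++ s.2.2)
      rw [SpQ.E_append]
      exact le_sup_left)
    (by
      intro W hW
      refine hi.1 W fun x v hv => ?_
      exact hW.apply ⟨R x, mem_alg R (Subgroup.mem_top x), rfl⟩ hv)
    (by
      intro W hW
      refine hi.2 W fun x v hv => ?_
      exact hW.apply ⟨R x, mem_alg R (Subgroup.mem_top x), rfl⟩ hv)
    (by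
      show 0 + _ ≤ _
      omega)
  obtain ⟨h1, h2, h3, h4, h5, h6⟩ := hinv s hs
  refine ⟨s.1, s.2.1, s.2.2, h1, h2, h3, h4, h5, ?_, ?_, h6⟩
  · have h7 : s.2.2.length ≤ 0 + m := hl1
    omega
  · exact le_antisymm (alg_mono R le_top) hl2

end grf

end Pool.Agent.EKL
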