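import Mathlib
import Pool.Agent.Helper7.Burnside

/-!
# Irreducible restrictions to subfamilies

Helper33, for MP_0707f5_ag (the near-linear range of helper21).

`V` is a finite dimensional space over an algebraically closed field, `A I` are algebras of
endomorphisms of `V`, for finite subsets `I` of a set of indices.  They increase with `I`, and
`A B` is generated by the `A (I ∪ {j})`, `j ∈ B \ I`, for every proper subset `I` of `B`.  If `V` is
irreducible for `A B` then `A I = A B` for some `I` with at most `4 (dim V - 1)` elements.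
-/

set_option autoImplicit false

namespace Pool.Agent.EKL

open Module

section basic
variable {K V : Type*} [Field K] [AddCommGroup V] [Module K V]

/-- the stabiliser of a subspace -/
def stb (W : Submodule K V) : Subalgebra K (Module.End K V) where
  carrier := {a | ∀ v ∈ W, a v ∈ W}
  mul_mem' := fun ha hb v hv => ha _ (hb v hv)
  add_mem' := fun ha hb v hv => W.add_mem (ha v hv) (hb v hv)
  algebraMap_mem' := fun c _ hv => W.smul_mem c hv

/-- stable subspaces of an algebra of endomorphisms -/
def St (A : Subalgebra K (Module.End K V)) (W : Submodule K V) : Prop := A ≤ stb W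

theorem St.apply {A : Subalgebra K (Module.End K V)} {W : Submodule K V} (h : St A W)
    {a : Module.End K V} (ha : a ∈ A) {v : V} (hv : v ∈ W) : a v ∈ W := h ha v hv

theorem St.mono {A A' : Subalgebra K (Module.End K V)} {W : Submodule K V} (h : St A' W)
    (hA : A ≤ A') : St A W := hA.trans h

theorem St.sup {A : Subalgebra K (Module.End K V)} {W W' : Submodule K V} (h : St A W)
    (h' : St A W') : St A (W ⊔ W') := by
  intro a ha v hv
  obtain ⟨x, hx, y, hy, rfl⟩ := Submodule.mem_sup.1 hv
  rw [map_add]
  exact Submodule.add_mem_sup (h ha x hx) (h' ha y hy)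

theorem St.inf {A : Subalgebra K (Module.End K V)} {W W' : Submodule K V} (h : St A W)
    (h' : St A W') : St A (W ⊓ W') := fun _ ha v hv =>
  ⟨h ha v hv.1, h' ha v hv.2⟩

theorem St.bot (A : Subalgebra K (Module.End K V)) : St A ⊥ := by
  intro a _ v hv
  rw [Submodule.mem_bot] at hv ⊢
  rw [hv, map_zero]

theorem St.top (A : Subalgebra K (Module.End K V)) : St A ⊤ := fun _ _ _ _ => trivial

/-- simple subspaces -/
def Smp (A : Subalgebra K (Module.End K V)) (E : Submodule K V) : Prop :=
  St A E ∧ E ≠ ⊥ ∧ ∀ W, St A W → W ≤ E → W = ⊥ ∨ W = E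

theorem exists_smp [FiniteDimensional K V] {A : Subalgebra K (Module.End K V)}
    {W : Submodule K V} (hW : St A W) (h0 : W ≠ ⊥) : ∃ E ≤ W, Smp A E := by
  obtain ⟨E, ⟨h1, h2, h3⟩, hmin⟩ := WellFounded.has_min
    (wellFounded_lt (α := Submodule K V)) {E | St A E ∧ E ≠ ⊥ ∧ E ≤ W} ⟨W, hW, h0, le_rfl⟩
  refine ⟨E, h3, h1, h2, fun W' hW' hle => ?_⟩
  by_contra hcon
  push Not at hcon
  exact hmin W' ⟨hW', hcon.1, hle.trans h3⟩ (lt_of_le_of_ne hle hcon.2)

/-- sums of `n` independent nonzero subspaces with a property -/
inductive Ind (P : Submodule K V → Prop) : ℕ → Submodule K V → Prop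
  | zero : Ind P 0 ⊥
  | succ {n : ℕ} {S E : Submodule K V} : Ind P n S → P E → E ≠ ⊥ → Disjoint S E →
      Ind P (n + 1) (S ⊔ E)

theorem Ind.mono {P Q : Submodule K V → Prop} (h : ∀ E, P E → Q E) {n : ℕ} {S : Submodule K V}
    (hS : Ind P n S) : Ind Q n S := by
  induction hS with
  | zero => exact Ind.zero
  | succ _ h1 h2 h3 ih => exact Ind.succ ih (h _ h1) h2 h3

theorem Ind.le_finrank [FiniteDimensional K V] {P : Submodule K V → Prop} {n : ℕ}
    {S : Submodule K V} (hS : Ind P n S) : n ≤ finrank K S := by
  induction hS with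
  | zero => exact Nat.zero_le _
  | @succ n S E _ h1 h2 h3 ih =>
    have h4 := Submodule.finrank_sup_add_finrank_inf_eq S E
    rw [h3.eq_bot, finrank_bot] at h4
    have h5 : 1 ≤ finrank K E := Submodule.one_le_finrank_iff.2 h2
    omega

theorem Ind.st {A : Subalgebra K (Module.End K V)} {n : ℕ} {S : Submodule K V}
    (hS : Ind (St A) n S) : St A S := by
  induction hS with
  | zero => exact St.bot A
  | succ _ h1 _ _ ih => exact ih.sup h1

theorem Ind.smp [FiniteDimensional K V] {A : Subalgebra K (Module.End K V)} {n : ℕ}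
    {S : Submodule K V} (hS : Ind (St A) n S) : ∃ S' ≤ S, Ind (Smp A) n S' := by
  induction hS with
  | zero => exact ⟨⊥, le_rfl, Ind.zero⟩
  | succ _ h1 h2 h3 ih =>
    obtain ⟨S', hle, hS'⟩ := ih
    obtain ⟨E', hE, hE'⟩ := exists_smp h1 h2
    exact ⟨S' ⊔ E', sup_le_sup hle hE, Ind.succ hS' hE' hE'.2.1 (h3.mono hle hE)⟩

open Classical in
/-- the Goldie dimension -/
noncomputable def gol (A : Subalgebra K (Module.End K V)) : ℕ :=
  Nat.findGreatest (fun n => ∃ S, Ind (St A) n S) (finrank K V)

theorem gol_le (A : Subalgebra K (Module.End K V)) : gol A ≤ finrank K V := by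
  classical
  unfold gol
  exact Nat.findGreatest_le _

theorem Ind.le_gol [FiniteDimensional K V] {A : Subalgebra K (Module.End K V)} {n : ℕ}
    {S : Submodule K V} (hS : Ind (St A) n S) : n ≤ gol A := by
  classical
  unfold gol
  exact Nat.le_findGreatest (hS.le_finrank.trans (Submodule.finrank_le S)) ⟨S, hS⟩

theorem gol_spec (A : Subalgebra K (Module.End K V)) : ∃ S, Ind (St A) (gol A) S := by
  classical
  unfold gol
  exact Nat.findGreatest_spec (P := fun n => ∃ S, Ind (St A) n S) (Nat.zero_le _) ⟨⊥, Ind.zero⟩

theorem gol_anti [FiniteDimensional K V] {A A' : Subalgebra K (Module.End K V)} (h : A ≤ A') :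
    gol A' ≤ gol A := by
  obtain ⟨S, hS⟩ := gol_spec A'
  exact (hS.mono fun E hE => hE.mono h).le_gol

theorem one_le_gol [FiniteDimensional K V] [Nontrivial V] (A : Subalgebra K (Module.End K V)) :
    1 ≤ gol A := by
  have h1 : Ind (St A) 1 (⊥ ⊔ ⊤) := Ind.succ Ind.zero (St.top A) top_ne_bot disjoint_bot_left
  exact h1.le_gol

/-! ### the length -/

/-- a stable subspace as a submodule -/
def toA (A : Subalgebra K (Module.End K V)) (W : Submodule K V) (h : St A W) : Submodule A V where
  carrier := W
  add_mem' := W.add_mem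
  zero_mem' := W.zero_mem
  smul_mem' := fun a _ hv => h a.2 _ hv

/-- a submodule as a stable subspace -/
def ofA {A : Subalgebra K (Module.End K V)} (W : Submodule A V) : Submodule K V :=
  W.restrictScalars K

theorem st_ofA {A : Subalgebra K (Module.End K V)} (W : Submodule A V) : St A (ofA W) :=
  fun a ha _ hv => W.smul_mem (⟨a, ha⟩ : A) hv

/-- restriction to a smaller algebra -/
def res {A A' : Subalgebra K (Module.End K V)} (h : A ≤ A') (W : Submodule A' V) : Submodule A V :=
  toA A (ofA W) ((st_ofA W).mono h)

theorem mem_res {A A' : Subalgebra K (Module.End K V)} (h : A ≤ A') (W : Submodule A' V) (v : V) :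
    v ∈ res h W ↔ v ∈ W := Iff.rfl

theorem res_strictMono {A A' : Subalgebra K (Module.End K V)} (h : A ≤ A') :
    StrictMono (res h) := by
  intro W W' hlt
  refine lt_of_le_of_ne (fun v hv => hlt.le hv) fun heq => hlt.ne ?_
  ext v
  rw [← mem_res h, heq, mem_res]

theorem artinian [FiniteDimensional K V] (A : Subalgebra K (Module.End K V)) : IsArtinian A V :=
  isArtinian_of_tower K inferInstance

theorem noetherian [FiniteDimensional K V] (A : Subalgebra K (Module.End K V)) :
    IsNoetherian A V := isNoetherian_of_tower K inferInstance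

/-- the length -/
noncomputable def len (A : Subalgebra K (Module.End K V)) : ℕ := (Module.length A V).toNat

theorem coe_len [FiniteDimensional K V] (A : Subalgebra K (Module.End K V)) :
    ((len A : ℕ) : ℕ∞) = Module.length A V := by
  have := artinian A
  have := noetherian A
  exact ENat.natCast_toNat Module.length_ne_top

theorem length_anti {A A' : Subalgebra K (Module.End K V)} (h : A ≤ A') :
    Module.length A' V ≤ Module.length A V := by
  rw [Module.length_eq_height, Module.length_eq_height]
  exact Order.height_le_height_apply_of_strictMono (res h) (res_strictMono h) ⊤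

theorem len_anti [FiniteDimensional K V] {A A' : Subalgebra K (Module.End K V)} (h : A ≤ A') :
    len A' ≤ len A := by
  have h1 := length_anti h
  rw [← coe_len, ← coe_len] at h1
  exact_mod_cast h1

theorem len_le [FiniteDimensional K V] (A : Subalgebra K (Module.End K V)) :
    len A ≤ finrank K V := by
  have h1 : Module.length A V ≤ Module.length K V := by
    rw [Module.length_eq_height, Module.length_eq_height]
    refine Order.height_le_height_apply_of_strictMono
      (fun W : Submodule A V => W.restrictScalars K) ?_ ⊤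
    intro W W' hlt
    exact lt_of_le_of_ne (fun v hv => hlt.le hv)
      fun heq => hlt.ne (Submodule.restrictScalars_injective K A V heq)
  rw [← coe_len, Module.length_eq_finrank] at h1
  exact_mod_cast h1

theorem one_le_len [FiniteDimensional K V] [Nontrivial V] (A : Subalgebra K (Module.End K V)) :
    1 ≤ len A := by
  have h1 := coe_len A
  have h2 : 0 < Module.length A V := Module.length_pos
  rw [← h1] at h2
  have h3 : 0 < len A := by exact_mod_cast h2
  exact h3

theorem add_heights {R M : Type*} [Ring R] [AddCommGroup M] [Module R M] (W : Submodule R M) :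
    Module.length R M = Order.height W + Order.coheight W := by
  rw [← Module.length_submodule, ← Module.length_quotient]
  exact Module.length_eq_add_of_exact W.subtype W.mkQ W.injective_subtype W.mkQ_surjective
    (LinearMap.exact_subtype_mkQ W)

theorem smp_iff {A : Subalgebra K (Module.End K V)} (W : Submodule A V) :
    Smp A (ofA W) ↔ Order.height W = 1 := by
  rw [← Module.length_submodule, Module.length_eq_one_iff, isSimpleModule_iff_isAtom]
  constructor
  · rintro ⟨-, h1, h2⟩
    refine ⟨fun h => h1 ?_, fun W' hlt => ?_⟩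
    · rw [h]
      rfl
    · rcases h2 (ofA W') (st_ofA W') (fun v hv => hlt.le hv) with h3 | h3
      · exact Submodule.restrictScalars_injective K A V (h3.trans rfl)
      · exact absurd (Submodule.restrictScalars_injective K A V h3) hlt.ne
  · intro h
    refine ⟨st_ofA W, fun h1 => h.1 (Submodule.restrictScalars_injective K A V (h1.trans rfl)),
      fun W' hW' hle => ?_⟩
    rcases h.le_iff.1 (show toA A W' hW' ≤ W from fun v hv => hle hv) with h1 | h1
    · left
      rw [eq_bot_iff]
      intro v hv
      have h2 : v ∈ toA A W' hW' := hv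
      rw [h1] at h2
      exact h2
    · right
      ext v
      rw [← show v ∈ toA A W' hW' ↔ v ∈ W' from Iff.rfl, h1]
      rfl

/-- if the length does not change then simple subspaces remain simple -/
theorem Smp.of_len [FiniteDimensional K V] {A A' : Subalgebra K (Module.End K V)} (h : A ≤ A')
    (hl : len A = len A') {E : Submodule K V} (hE : Smp A' E) : Smp A E := by
  have := artinian A
  have := noetherian A
  have := artinian A'
  have := noetherian A'
  set W : Submodule A' V := toA A' E hE.1 with hW
  have e1 : ofA W = E := rfl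
  have e2 : ofA (res h W) = E := rfl
  rw [← e1] at hE
  rw [← e2]
  rw [smp_iff] at hE ⊢
  have h1 : Module.length A V = Module.length A' V := by
    rw [← coe_len, ← coe_len, hl]
  have h2 := Order.height_le_height_apply_of_strictMono (res h) (res_strictMono h) W
  have h3 := Order.coheight_le_coheight_apply_of_strictMono (res h) (res_strictMono h) W
  rw [add_heights (res h W), add_heights W] at h1
  have h4 : Order.coheight W ≠ ⊤ := by
    intro h5
    have h6 := add_heights W
    rw [h5, add_top] at h6
    exact Module.length_ne_top h6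
  refine le_antisymm ?_ (hE ▸ h2)
  rw [← hE]
  have h5 : Order.height (res h W) + Order.coheight W ≤ Order.height W + Order.coheight W :=
    (add_le_add_right h3 _).trans h1.le
  exact (ENat.add_le_add_iff_right h4).1 h5

/-- the socle has the length of the Goldie dimension -/
theorem le_of_max [FiniteDimensional K V] {A : Subalgebra K (Module.End K V)} {S : Submodule K V}
    (hS : Ind (St A) (gol A) S) {E : Submodule K V} (hE : Smp A E) : E ≤ S := by
  rcases hE.2.2 (S ⊓ E) (hS.st.inf hE.1) inf_le_right with h | h
  · have h1 : Ind (St A) (gol A + 1) (S ⊔ E) := Ind.succ hS hE.1 hE.2.1 (disjoint_iff.2 h)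
    have := h1.le_gol
    omega
  · rw [← h]
    exact inf_le_left

/-- the annihilated subspace is stable under the larger algebra -/
theorem ann_stable {A A' : Subalgebra K (Module.End K V)} (h : A ≤ A')
    (hs : ∀ E, Smp A' E → Smp A E) (X : Submodule K V) (hX : St A X)
    (T : Set (Module.End K V)) (hT : ∀ t ∈ T, t ∈ A) (hXT : ∀ v, v ∈ X ↔ ∀ t ∈ T, t v = 0)
    {n : ℕ} {S : Submodule K V} (hS : Ind (Smp A') n S) : St A' (S ⊓ X) := by
  induction hS with
  | zero =>
    rw [bot_inf_eq]
    exact St.bot A'
  | @succ n S E hS hE h0 hd ih =>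
    have e : (S ⊔ E) ⊓ X = (S ⊓ X) ⊔ (E ⊓ X) := by
      apply le_antisymm
      · rintro v ⟨hv, hvX⟩
        obtain ⟨s, hsS, f, hf, rfl⟩ := Submodule.mem_sup.1 hv
        have hSst : St A' S := (hS.mono fun E hE => hE.1).st
        have h1 : ∀ t ∈ T, t s = 0 ∧ t f = 0 := by
          intro t ht
          have h2 := (hXT _).1 hvX t ht
          rw [map_add] at h2
          have h3 : t s ∈ S := hSst (h (hT t ht)) s hsS
          have h4 : t f ∈ E := hE.1 (h (hT t ht)) f hf
          have h5 : t s = - t f := eq_neg_of_add_eq_zero_left h2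
          have h6 : t s ∈ E := by
            rw [h5]
            exact E.neg_mem h4
          have h7 : t s = 0 := Submodule.disjoint_def.1 hd _ h3 h6
          refine ⟨h7, ?_⟩
          rw [h7, zero_add] at h2
          exact h2
        exact Submodule.add_mem_sup ⟨hsS, (hXT _).2 fun t ht => (h1 t ht).1⟩
          ⟨hf, (hXT _).2 fun t ht => (h1 t ht).2⟩
      · exact sup_le (inf_le_inf le_sup_left le_rfl) (inf_le_inf le_sup_right le_rfl)
    rw [e]
    refine ih.sup ?_
    have h1 := hs E hE
    rcases h1.2.2 (E ⊓ X) (h1.1.inf hX) inf_le_left with h2 | h2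
    · rw [h2]
      exact St.bot A'
    · rw [h2]
      exact hE.1

/-- Burnside's theorem for a simple subspace -/
theorem Smp.dense [IsAlgClosed K] [FiniteDimensional K V] {A : Subalgebra K (Module.End K V)}
    {E : Submodule K V} (hE : Smp A E) (f : Module.End K E) :
    ∃ a ∈ A, ∀ v : E, a v = (f v : V) := by
  have hnt : Nontrivial E := (Submodule.nontrivial_iff_ne_bot).2 hE.2.1
  let T : Subalgebra K (Module.End K E) :=
    { carrier := {f | ∃ a ∈ A, ∀ v : E, a v = (f v : V)}
      mul_mem' := by
        rintro f g ⟨a, ha, h1⟩ ⟨b, hb, h2⟩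
        refine ⟨a * b, A.mul_mem ha hb, fun v => ?_⟩
        rw [Module.End.mul_apply, h2, h1]
        rfl
      add_mem' := by
        rintro f g ⟨a, ha, h1⟩ ⟨b, hb, h2⟩
        refine ⟨a + b, A.add_mem ha hb, fun v => ?_⟩
        rw [LinearMap.add_apply, h1, h2]
        rfl
      algebraMap_mem' := by
        intro c
        exact ⟨algebraMap K _ c, A.algebraMap_mem c, fun v => rfl⟩ }
  have hres : ∀ a ∈ A, ∃ f ∈ T, ∀ v : E, a v = (f v : V) := by
    intro a ha
    let f : Module.End K E := a.restrict fun v hv => hE.1 ha v hv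
    exact ⟨f, ⟨a, ha, fun v => rfl⟩, fun v => rfl⟩
  have h1 : Algebra.adjoin K (T : Set (Module.End K E)) = ⊤ := by
    apply Helper7.burnside
    · intro U hU
      have h2 : St A (U.map E.subtype) := by
        rintro a ha _ ⟨v, hv, rfl⟩
        obtain ⟨f, hf, hfa⟩ := hres a ha
        exact ⟨f v, hU f hf v hv, (hfa v).symm⟩
      rcases hE.2.2 _ h2 (Submodule.map_subtype_le E U) with h3 | h3
      · left
        rw [eq_bot_iff]
        intro v hv
        have h4 : (v : V) ∈ U.map E.subtype := ⟨v, hv, rfl⟩
        rw [h3, Submodule.mem_bot] at h4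
        exact (Submodule.mem_bot K).2 (Subtype.ext h4)
      · right
        rw [eq_top_iff]
        rintro v -
        have h4 : (v : V) ∈ U.map E.subtype := by
          rw [h3]
          exact v.2
        obtain ⟨u, hu, huv⟩ := h4
        have h5 : u = v := Subtype.ext huv
        rwa [← h5]
    · intro t ht
      obtain ⟨c, hc⟩ := Module.End.exists_eigenvalue t
      refine ⟨c, ?_⟩
      set W : Submodule K V := (Module.End.eigenspace t c).map E.subtype with hW
      have h2 : St A W := by
        rintro a ha _ ⟨v, hv, rfl⟩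
        obtain ⟨f, hf, hfa⟩ := hres a ha
        refine ⟨f v, ?_, (hfa v).symm⟩
        have h3 := ht f hf
        rw [SetLike.mem_coe, Module.End.mem_eigenspace_iff] at hv ⊢
        have h4 : (t * f) v = (f * t) v := by rw [h3]
        rw [Module.End.mul_apply, Module.End.mul_apply, hv, map_smul] at h4
        exact h4
      rcases hE.2.2 _ h2 (Submodule.map_subtype_le E _) with h3 | h3
      · exfalso
        obtain ⟨v, hv, hv0⟩ := hc.exists_hasEigenvector
        have h4 : (v : V) ∈ W := ⟨v, hv, rfl⟩
        rw [h3, Submodule.mem_bot] at h4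
        exact hv0 (Subtype.ext h4)
      · ext v
        have h4 : (v : V) ∈ W := by
          rw [h3]
          exact v.2
        obtain ⟨u, hu, huv⟩ := h4
        have h5 : u = v := Subtype.ext huv
        rw [h5, SetLike.mem_coe, Module.End.mem_eigenspace_iff] at hu
        rw [hu]
        rfl
  have h2 : f ∈ Algebra.adjoin K (T : Set (Module.End K E)) := by
    rw [h1]
    trivial
  rw [Algebra.adjoin_eq] at h2
  exact h2

end basic

section irr
variable {K V ι : Type*} [Field K] [AddCommGroup V] [Module K V] [DecidableEq ι]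

theorem Ind.le {A : Subalgebra K (Module.End K V)} {n : ℕ} {S T : Submodule K V}
    (hS : Ind (Smp A) n S) (h : ∀ E, Smp A E → E ≤ T) : S ≤ T := by
  induction hS with
  | zero => exact bot_le
  | succ _ h1 _ _ ih => exact sup_le ih (h _ h1)

/-- stability under the algebra of `B` -/
private theorem st_of {B : Finset ι} {A : Finset ι → Subalgebra K (Module.End K V)}
    {I : Finset ι} (hg : A B ≤ ⨆ j ∈ B \ I, A (insert j I)) {W : Submodule K V}
    (h : ∀ j ∈ B \ I, St (A (insert j I)) W) : St (A B) W :=
  hg.trans (iSup₂_le h)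

/-- **the key lemma** -/
theorem irr [FiniteDimensional K V] [IsAlgClosed K] [Nontrivial V] (B : Finset ι)
    (A : Finset ι → Subalgebra K (Module.End K V)) (hm : Monotone A)
    (hg : ∀ I ⊂ B, A B ≤ ⨆ j ∈ B \ I, A (insert j I))
    (hi : ∀ W, St (A B) W → W = ⊥ ∨ W = ⊤) :
    ∃ I ⊆ B, I.card ≤ 4 * (finrank K V - 1) ∧ A I = A B := by
  set d := finrank K V with hd
  have hd1 : 1 ≤ d := Module.finrank_pos
  let Φ : Finset ι → ℕ := fun I => len (A I) + gol (A I)
  have hΦ1 : ∀ I, 2 ≤ Φ I := fun I => by
    have h1 := one_le_len (A I)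
    have h2 := one_le_gol (A I)
    show 2 ≤ len (A I) + gol (A I)
    omega
  have hΦ2 : ∀ I, Φ I ≤ 2 * d := fun I => by
    have h1 := len_le (A I)
    have h2 := gol_le (A I)
    show len (A I) + gol (A I) ≤ 2 * d
    omega
  -- a minimum
  obtain ⟨I, hI, hmin⟩ := Finset.exists_min_image B.powerset
    (fun I => (2 * Φ I + I.card) * (2 * d + 1) + Φ I) ⟨∅, Finset.empty_mem_powerset B⟩
  rw [Finset.mem_powerset] at hI
  have hcard : I.card ≤ 4 * (d - 1) := by
    have h1 := hmin ∅ (Finset.empty_mem_powerset B)
    have h2 := hΦ1 I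
    have h3 := hΦ2 ∅
    rw [Finset.card_empty, add_zero] at h1
    have h4 : (2 * Φ I + I.card) ≤ 2 * Φ ∅ := by
      by_contra hcon
      push Not at hcon
      have h5 : (2 * Φ ∅ + 1) * (2 * d + 1) ≤ (2 * Φ I + I.card) * (2 * d + 1) :=
        Nat.mul_le_mul_right _ hcon
      have h6 : (2 * Φ ∅ + 1) * (2 * d + 1) = 2 * Φ ∅ * (2 * d + 1) + (2 * d + 1) := by ring
      omega
    omega
  -- the potential is constant near `I`
  have hconst : ∀ J, I ⊆ J → J ⊆ B → J.card ≤ I.card + 2 →
      len (A J) = len (A I) ∧ gol (A J) = gol (A I) := by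
    intro J hIJ hJ hJc
    have h1 := hmin J (Finset.mem_powerset.2 hJ)
    have h2 : Φ I ≤ Φ J := by
      by_contra hcon
      push Not at hcon
      have h3 : 2 * Φ J + J.card ≤ 2 * Φ I + I.card := by omega
      have h4 := Nat.mul_le_mul_right (2 * d + 1) h3
      omega
    have h3 := len_anti (hm hIJ)
    have h4 := gol_anti (hm hIJ)
    have h5 : len (A I) + gol (A I) ≤ len (A J) + gol (A J) := h2
    omega
  have hins : ∀ j ∈ B \ I, insert j I ⊆ B ∧ (insert j I).card ≤ I.card + 1 := by
    intro j hj
    exact ⟨Finset.insert_subset (Finset.mem_sdiff.1 hj).1 hI, Finset.card_insert_le j I⟩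
  refine ⟨I, hI, hcard, ?_⟩
  by_cases hIB : I = B
  · rw [hIB]
  have hIB' : I ⊂ B := lt_of_le_of_ne hI hIB
  -- everything is semisimple
  have hsoc : ∀ J, I ⊆ J → J ⊂ B → J.card ≤ I.card + 1 → ∀ k ∈ B \ J,
      ∃ n, Ind (Smp (A (insert k J))) n ⊤ := by
    intro J hIJ hJB hJc k hk
    obtain ⟨S₀, hS₀⟩ := gol_spec (A J)
    obtain ⟨S, -, hS⟩ := hS₀.smp
    have hS1 : Ind (St (A J)) (gol (A J)) S := hS.mono fun E hE => hE.1
    have key : ∀ j ∈ B \ J, ∃ n, Ind (Smp (A (insert j J))) n S := by
      intro j hj
      have hjB := (Finset.mem_sdiff.1 hj).1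
      obtain ⟨e1, e2⟩ := hconst J hIJ hJB.1 (by omega)
      obtain ⟨e3, e4⟩ := hconst (insert j J) (hIJ.trans (Finset.subset_insert j J))
        (Finset.insert_subset hjB hJB.1) ((Finset.card_insert_le j J).trans (by omega))
      have hle : A J ≤ A (insert j J) := hm (Finset.subset_insert j J)
      obtain ⟨S₁, hS₁⟩ := gol_spec (A (insert j J))
      obtain ⟨S', -, hS'⟩ := hS₁.smp
      have hsm : ∀ E, Smp (A (insert j J)) E → Smp (A J) E := fun E hE =>
        hE.of_len hle (e1.trans e3.symm)
      have hS2 : Ind (St (A J)) (gol (A J)) S' := by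
        rw [e2, ← e4]
        exact hS'.mono fun E hE => (hsm E hE).1
      have h1 : S ≤ S' := hS.le fun E hE => le_of_max hS2 hE
      have h2 : S' ≤ S := (hS'.mono hsm).le fun E hE => le_of_max hS1 hE
      rw [le_antisymm h1 h2]
      exact ⟨_, hS'⟩
    have hst : St (A B) S := by
      refine st_of (hg J hJB) fun j hj => ?_
      obtain ⟨n, hn⟩ := key j hj
      exact (hn.mono fun E hE => hE.1).st
    have htop : S = ⊤ := by
      refine (hi S hst).resolve_left fun h0 => ?_
      have h1 := hS1.le_finrank
      rw [h0, finrank_bot] at h1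
      have h2 := one_le_gol (A J)
      omega
    rw [← htop]
    exact key k hk
  have hmain : ∀ j ∈ B \ I, A (insert j I) ≤ A I := by
    intro j hj
    obtain ⟨hJB, hJc⟩ := hins j hj
    set J := insert j I with hJ
    have hIJ : I ⊆ J := Finset.subset_insert j I
    have hle : A I ≤ A J := hm hIJ
    obtain ⟨E, -, hE⟩ := exists_smp (St.top (A J)) top_ne_bot
    have hEI : Smp (A I) E := hE.of_len hle (hconst J hIJ hJB (by omega)).1.symm
    -- the annihilated subspace
    let T : Set (Module.End K V) := {a | a ∈ A J ∧ ∀ v ∈ E, a v = 0}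
    let X : Submodule K V :=
      { carrier := {v | ∀ t ∈ T, t v = 0}
        add_mem' := fun {v w} hv hw t ht => by rw [map_add, hv t ht, hw t ht, add_zero]
        zero_mem' := fun t _ => map_zero t
        smul_mem' := fun c v hv t ht => by rw [map_smul, hv t ht, smul_zero] }
    have hX : St (A J) X := by
      intro b hb v hv t ht
      have h1 : t * b ∈ T := ⟨(A J).mul_mem ht.1 hb, fun w hw => ht.2 _ (hE.1 hb w hw)⟩
      exact hv _ h1
    have hEX : E ≤ X := fun v hv t ht => ht.2 v hv
    have hXB : St (A B) X := by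
      by_cases hJB' : J = B
      · rw [← hJB']
        exact hX
      · have hJB2 : J ⊂ B := lt_of_le_of_ne hJB hJB'
        refine st_of (hg J hJB2) fun k hk => ?_
        obtain ⟨n, hn⟩ := hsoc J hIJ hJB2 hJc k hk
        have h1 := ann_stable (hm (Finset.subset_insert k J)) (fun E hE => hE.of_len
          (hm (Finset.subset_insert k J)) ?_) X hX T (fun t ht => ht.1) (fun v => Iff.rfl) hn
        · rwa [top_inf_eq] at h1
        · have h2 := hconst J hIJ hJB (by omega)
          have h3 := hconst (insert k J) (hIJ.trans (Finset.subset_insert k J))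
            (Finset.insert_subset (Finset.mem_sdiff.1 hk).1 hJB)
            ((Finset.card_insert_le k J).trans (by omega))
          exact h2.1.trans h3.1.symm
    have hXtop : X = ⊤ := (hi X hXB).resolve_left fun h0 => hE.2.1 (by
      rw [eq_bot_iff, ← h0]
      exact hEX)
    intro a ha
    obtain ⟨a', ha', h1⟩ := hEI.dense (a.restrict fun v hv => hE.1 ha v hv)
    have h2 : a - a' ∈ T := by
      refine ⟨(A J).sub_mem ha (hle ha'), fun v hv => ?_⟩
      have h3 := h1 ⟨v, hv⟩
      rw [LinearMap.sub_apply, sub_eq_zero]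
      exact h3.symm
    have h3 : a = a' := by
      ext v
      have h4 : v ∈ X := by
        rw [hXtop]
        trivial
      have h5 := h4 _ h2
      rw [LinearMap.sub_apply, sub_eq_zero] at h5
      exact h5
    rw [h3]
    exact ha'
  exact le_antisymm (hm hI) ((hg I hIB').trans (iSup₂_le hmain))

end irr

end Pool.Agent.EKL
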