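import Pool.Agent.EKL.Two
import Pool.Agent.LGC.Bas
import Pool.Agent.LGP.WMain

/-!
# A long list of killed handles contains a spare one: nearly all handles are not needed

Helper33, for MP_0707f5_ag (the near-linear range of helper21).
-/

set_option autoImplicit false

namespace Pool.Agent.EKL

open Module
open SpQ (Hd cj1)
open LGC (It hl GI Kl mem_hl GI_mono mem_GI grp)

section alg
variable {K M G : Type*} [Field K] [Ring M] [Algebra K M] [Group G]

/-- the algebra of a subgroup -/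
def alg (K : Type*) {M G : Type*} [Field K] [Ring M] [Algebra K M] [Group G] (R : G →* M)
    (H : Subgroup G) : Subalgebra K M := Algebra.adjoin K (R '' (H : Set G))

theorem alg_mono (R : G →* M) {H H' : Subgroup G} (h : H ≤ H') : alg K R H ≤ alg K R H' :=
  Algebra.adjoin_mono (Set.image_mono h)

theorem mem_alg (R : G →* M) {H : Subgroup G} {x : G} (hx : x ∈ H) : R x ∈ alg K R H :=
  Algebra.subset_adjoin ⟨x, hx, rfl⟩

/-- the elements which are in a subalgebra together with their inverses -/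
def sg (R : G →* M) (T : Subalgebra K M) : Subgroup G where
  carrier := {x | R x ∈ T ∧ R x⁻¹ ∈ T}
  one_mem' := by
    show R 1 ∈ T ∧ R (1 : G)⁻¹ ∈ T
    rw [inv_one, map_one]
    exact ⟨T.one_mem, T.one_mem⟩
  mul_mem' := by
    rintro x y ⟨hx, hx'⟩ ⟨hy, hy'⟩
    refine ⟨?_, ?_⟩
    · rw [map_mul]
      exact T.mul_mem hx hy
    · rw [mul_inv_rev, map_mul]
      exact T.mul_mem hy' hx'
  inv_mem' := by
    rintro x ⟨hx, hx'⟩
    refine ⟨hx', ?_⟩
    rw [inv_inv]
    exact hx

theorem alg_le_iff (R : G →* M) (H : Subgroup G) (T : Subalgebra K M) :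
    alg K R H ≤ T ↔ H ≤ sg R T := by
  unfold alg
  rw [Algebra.adjoin_le_iff]
  constructor
  · intro h x hx
    exact ⟨h ⟨x, hx, rfl⟩, h ⟨x⁻¹, H.inv_mem hx, rfl⟩⟩
  · rintro h _ ⟨x, hx, rfl⟩
    exact (h hx).1

/-- the algebra of a subgroup is its span -/
theorem mem_alg_iff (R : G →* M) (H : Subgroup G) (m : M) :
    m ∈ alg K R H ↔ m ∈ Submodule.span K (R '' (H : Set G)) := by
  have h1 : Submonoid.closure (R '' (H : Set G)) = H.toSubmonoid.map R := by
    apply le_antisymm
    · rw [Submonoid.closure_le]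
      rintro _ ⟨x, hx, rfl⟩
      exact ⟨x, hx, rfl⟩
    · rintro _ ⟨x, hx, rfl⟩
      exact Submonoid.subset_closure ⟨x, hx, rfl⟩
  have h2 := Algebra.adjoin_eq_span K (R '' (H : Set G))
  rw [h1] at h2
  have h3 : m ∈ alg K R H ↔ m ∈ Subalgebra.toSubmodule (alg K R H) := Iff.rfl
  rw [h3]
  unfold alg
  rw [h2]
  rfl

end alg

section lst
variable {K V₁ V₂ : Type*} [Field K] [IsAlgClosed K] [AddCommGroup V₁] [Module K V₁]
  [FiniteDimensional K V₁] [Nontrivial V₁] [AddCommGroup V₂] [Module K V₂]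
  [FiniteDimensional K V₂] [Nontrivial V₂] {Γ : Type} [Group Γ] {k : ℕ}

/-- **a long list of killed handles contains a handle without which the algebra is the same** -/
theorem spare (N : Subgroup Γ) [N.Normal] (R : N →* Module.End K V₁ × Module.End K V₂)
    (X : List (It Γ k)) (B : List (Hd Γ k)) (hB : ∀ h ∈ B, Kl N h)
    (h1 : ∀ W : Submodule K V₁, (∀ x : N, (x : Γ) ∈ GI (X ++ hl B) → ∀ v ∈ W, (R x).1 v ∈ W) →
      W = ⊥ ∨ W = ⊤)
    (h2 : ∀ W : Submodule K V₂, (∀ x : N, (x : Γ) ∈ GI (X ++ hl B) → ∀ v ∈ W, (R x).2 v ∈ W) →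
      W = ⊥ ∨ W = ⊤)
    (hlen : 4 * (finrank K V₁ - 1) + 4 * (finrank K V₂ - 1) + 1 < B.length) :
    ∃ (s : List (Hd Γ k)) (p : Hd Γ k) (t : List (Hd Γ k)), B = s ++ p :: t ∧
      alg K R ((GI (X ++ hl (s ++ t))).subgroupOf N) =
        alg K R ((GI (X ++ hl B)).subgroupOf N) := by
  classical
  let L : Finset (Fin B.length) → List (Hd Γ k) := fun I =>
    ((List.finRange B.length).filter (· ∈ I)).map B.get
  have hL : ∀ I q, q ∈ L I ↔ ∃ i ∈ I, B.get i = q := by
    intro I q
    constructor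
    · intro h
      obtain ⟨i, hi, hq⟩ := List.mem_map.1 h
      exact ⟨i, by simpa using (List.mem_filter.1 hi).2, hq⟩
    · rintro ⟨i, hi, hq⟩
      exact List.mem_map.2 ⟨i, List.mem_filter.2 ⟨List.mem_finRange i, by simpa using hi⟩, hq⟩
  let G : List (Hd Γ k) → Subgroup N := fun C => (GI (X ++ hl C)).subgroupOf N
  have hG : ∀ C D : List (Hd Γ k), (∀ q ∈ C, q ∈ D) → G C ≤ G D := by
    intro C D h
    refine Subgroup.comap_mono (GI_mono ?_)
    intro i hi
    rcases List.mem_append.1 hi with hi | hi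
    · exact List.mem_append_left _ hi
    · obtain ⟨p, hp, rfl⟩ := mem_hl.1 hi
      exact List.mem_append_right _ (mem_hl.2 ⟨p, h p hp, rfl⟩)
  let A : Finset (Fin B.length) → Subalgebra K (Module.End K V₁ × Module.End K V₂) := fun I =>
    alg K R (G (L I))
  have hLu : G (L Finset.univ) = G B := by
    apply le_antisymm
    · exact hG _ _ fun q hq => by
        obtain ⟨i, -, rfl⟩ := (hL _ _).1 hq
        exact List.get_mem _ _
    · exact hG _ _ fun q hq => by
        obtain ⟨i, hi⟩ := List.get_of_mem hq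
        exact (hL _ _).2 ⟨i, Finset.mem_univ i, hi⟩
  have hm : Monotone A := by
    intro I J hIJ
    refine alg_mono R (hG _ _ fun q hq => ?_)
    obtain ⟨i, hi, hq⟩ := (hL _ _).1 hq
    exact (hL _ _).2 ⟨i, hIJ hi, hq⟩
  have hg : ∀ I ⊂ Finset.univ, A Finset.univ ≤ ⨆ j ∈ Finset.univ \ I, A (insert j I) := by
    intro I hI
    set T : Subalgebra K (Module.End K V₁ × Module.End K V₂) :=
      ⨆ j ∈ Finset.univ \ I, A (insert j I) with hT
    have hAT : ∀ j ∈ Finset.univ \ I, G (L (insert j I)) ≤ sg R T := by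
      intro j hj
      rw [← alg_le_iff]
      exact le_iSup₂_of_le j hj le_rfl
    obtain ⟨j₀, hj₀⟩ : ∃ j₀, j₀ ∈ Finset.univ \ I := Finset.sdiff_nonempty.2 hI.2
    show alg K R (G (L Finset.univ)) ≤ T
    rw [hLu, alg_le_iff]
    -- membership of an element of `Γ`
    have hmem : ∀ j ∈ Finset.univ \ I, ∀ z ∈ N, z ∈ GI (X ++ hl (L (insert j I))) →
        z ∈ (sg R T).map N.subtype := by
      intro j hj z hzN hz
      exact ⟨⟨z, hzN⟩, hAT j hj (Subgroup.mem_subgroupOf.2 hz), rfl⟩
    have hX : ∀ (C : List (Hd Γ k)) (z : Γ), z ∈ GI X → z ∈ GI (X ++ hl C) := fun C z hz =>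
      GI_mono (fun i hi => List.mem_append_left _ hi) hz
    have key : N ⊓ GI (X ++ hl B) ≤ (sg R T).map N.subtype := by
      apply grp X B hB
      · intro z hz
        exact hmem j₀ hj₀ z hz.1 (hX _ _ hz.2)
      · intro v hv q hq
        obtain ⟨i, hi⟩ := List.get_of_mem hq
        obtain ⟨j, hj, hqj⟩ : ∃ j ∈ Finset.univ \ I, q ∈ L (insert j I) := by
          by_cases hiI : i ∈ I
          · exact ⟨j₀, hj₀, (hL _ _).2 ⟨i, Finset.mem_insert_of_mem hiI, hi⟩⟩
          · exact ⟨i, Finset.mem_sdiff.2 ⟨Finset.mem_univ i, hiI⟩,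
              (hL _ _).2 ⟨i, Finset.mem_insert_self i I, hi⟩⟩
        have hk := (hB q hq).cj1 v
        have hv' := hX (L (insert j I)) v hv
        have hqm : (Sum.inl q : It Γ k) ∈ X ++ hl (L (insert j I)) :=
          List.mem_append_right _ (mem_hl.2 ⟨q, hqj, rfl⟩)
        have h3 : q.1.1 ∈ GI (X ++ hl (L (insert j I))) := mem_GI hqm (Or.inl rfl)
        have h4 : q.1.2 ∈ GI (X ++ hl (L (insert j I))) := mem_GI hqm (Or.inr rfl)
        rw [SpQ.E_singleton_le]
        exact ⟨hmem j hj _ hk.1 (Subgroup.mul_mem _ (Subgroup.mul_mem _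
            (Subgroup.inv_mem _ hv') h3) hv'),
          hmem j hj _ hk.2 (Subgroup.mul_mem _ (Subgroup.mul_mem _
            (Subgroup.inv_mem _ hv') h4) hv')⟩
    intro z hz
    obtain ⟨y, hy, hyz⟩ := key (Subgroup.mem_inf.2 ⟨z.2, Subgroup.mem_subgroupOf.1 hz⟩)
    have h3 : y = z := Subtype.ext hyz
    rwa [← h3]
  have hi1 : ∀ W, St ((A Finset.univ).map
      (AlgHom.fst K (Module.End K V₁) (Module.End K V₂))) W → W = ⊥ ∨ W = ⊤ := by
    intro W hW
    refine h1 W fun x hx v hv => ?_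
    have h3 : R x ∈ A Finset.univ := by
      refine mem_alg R ?_
      rw [hLu]
      exact Subgroup.mem_subgroupOf.2 hx
    exact hW.apply ⟨R x, h3, rfl⟩ hv
  have hi2 : ∀ W, St ((A Finset.univ).map
      (AlgHom.snd K (Module.End K V₁) (Module.End K V₂))) W → W = ⊥ ∨ W = ⊤ := by
    intro W hW
    refine h2 W fun x hx v hv => ?_
    have h3 : R x ∈ A Finset.univ := by
      refine mem_alg R ?_
      rw [hLu]
      exact Subgroup.mem_subgroupOf.2 hx
    exact hW.apply ⟨R x, h3, rfl⟩ hv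
  obtain ⟨I, -, hcard, hI⟩ := two Finset.univ A hm hg hi1 hi2
  -- a spare handle
  obtain ⟨i, hi⟩ : ∃ i : Fin B.length, i ∉ I := by
    by_contra hcon
    push Not at hcon
    have h3 : I = Finset.univ := Finset.eq_univ_of_forall hcon
    rw [h3, Finset.card_univ, Fintype.card_fin] at hcard
    omega
  have hsplit : B = B.take i ++ B.get i :: B.drop (i + 1) := by
    rw [List.get_eq_getElem, List.getElem_cons_drop, List.take_append_drop]
  refine ⟨B.take i, B.get i, B.drop (i + 1), hsplit, le_antisymm ?_ ?_⟩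
  · refine alg_mono R (hG _ _ fun q hq => ?_)
    rcases List.mem_append.1 hq with hq | hq
    · exact List.mem_of_mem_take hq
    · exact List.mem_of_mem_drop hq
  · show alg K R (G B) ≤ alg K R (G (B.take i ++ B.drop (i + 1)))
    rw [← hLu]
    show A Finset.univ ≤ _
    rw [← hI]
    refine alg_mono R (hG _ _ fun q hq => ?_)
    obtain ⟨j, hj, rfl⟩ := (hL _ _).1 hq
    have hji : j ≠ i := fun h => hi (h ▸ hj)
    rcases lt_or_gt_of_ne hji with hlt | hlt
    · apply List.mem_append_left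
      rw [List.mem_take_iff_getElem]
      exact ⟨j, by
        rw [lt_min_iff]
        exact ⟨hlt, j.2⟩, rfl⟩
    · apply List.mem_append_right
      rw [List.mem_drop_iff_getElem]
      refine ⟨(j : ℕ) - (i + 1), ?_, ?_⟩
      · have := j.2
        omega
      · have h5 : (i : ℕ) + 1 + (j - (i + 1)) = j := by
          have : (i : ℕ) < j := hlt
          omega
        simp only [h5, List.get_eq_getElem]

end lst

end Pool.Agent.EKL
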