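import Pool.Agent.LGN.Gr3
import Pool.Agent.EKL.Ful
import Pool.Agent.NLG.Stp

/-!
# A full block of killed handles, for pairs of matrices

Helper33, for MP_0707f5_ag (the linear range of helper35).
-/

set_option autoImplicit false

namespace Pool.Agent.EKL

open Module
open SpQ (Hd Good)
open LGC (It hl GI Kl IReach cls)
open LGP (cyc prR)
open NLG (Full Ess)

section
variable {Γ : Type} [Group Γ] {k r : ℕ}

/-- `Ess` for pairs of matrices -/
theorem ess (N : Subgroup Γ) [N.Normal] (ρ₁ ρ₂ : N →* GL (Fin r) ℂ)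
    (h1 : Pool.Agent.HZ.Irr ρ₁.range) (h2 : Pool.Agent.HZ.Irr ρ₂.range) :
    Ess k N (prR ρ₁ ρ₂) (8 * (r - 1) + 1) := by
  intro X B hB hf hlen
  exact spare_full N ρ₁ ρ₂ h1 h2 X B hB hf hlen

/-- one of the two representations by endomorphisms -/
noncomputable def lin {G : Type} [Group G] (ρ : G →* GL (Fin r) ℂ) :
    G →* Module.End ℂ (Fin r → ℂ) :=
  (Matrix.toLinAlgEquiv' (R := ℂ) (n := Fin r) :
    Matrix (Fin r) (Fin r) ℂ →* Module.End ℂ (Fin r → ℂ)).comp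
      ((Units.coeHom (Matrix (Fin r) (Fin r) ℂ)).comp ρ)

theorem al_lin {G : Type} [Group G] (hr : 0 < r) (ρ : G →* GL (Fin r) ℂ)
    (h : Pool.Agent.HZ.Irr ρ.range) : LGN.Al (lin ρ) ⊤ = ⊤ := by
  have : Nonempty (Fin r) := ⟨⟨0, hr⟩⟩
  refine eq_top_of_irr fun W hW => h W ?_
  rintro _ ⟨y, rfl⟩ v hv
  exact hW.apply (Algebra.subset_adjoin ⟨y, Subgroup.mem_top y, rfl⟩) hv

theorem al2_iff {G : Type} [Group G] (ρ₁ ρ₂ : G →* GL (Fin r) ℂ) (H : Subgroup G) :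
    (∀ w, cyc (prR ρ₁ ρ₂) w H = cyc (prR ρ₁ ρ₂) w ⊤) ↔
      LGN.Al2 (lin ρ₁) (lin ρ₂) H = LGN.Al2 (lin ρ₁) (lin ρ₂) ⊤ := full_iff ρ₁ ρ₂ H

/-- **a full block** -/
theorem pone (hA : LGC.St_All) (hG : LGC.St_Gek) (N : Subgroup Γ) [N.Normal]
    (ρ₁ ρ₂ : N →* GL (Fin r) ℂ)
    (h1 : Pool.Agent.HZ.Irr ρ₁.range) (h2 : Pool.Agent.HZ.Irr ρ₂.range)
    (X : List (It Γ k)) (B : List (Hd Γ k)) (hB : ∀ h ∈ B, Kl N h)
    (hf : Full N (prR ρ₁ ρ₂) X B) (m : ℕ) (hm : 8 * r ≤ m) (hlen : m + 8 * r + 1 ≤ B.length) :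
    ∃ (X' : List (It Γ k)) (B' P : List (Hd Γ k)),
      IReach (X ++ hl B) (X' ++ hl (B' ++ P)) ∧ X'.map (cls N) = X.map (cls N) ∧
      P.length = m ∧ B'.length + m = B.length ∧ (∀ h ∈ P, Good h) ∧ (∀ h ∈ B' ++ P, Kl N h) ∧
      Full N (prR ρ₁ ρ₂) [] P ∧ Full N (prR ρ₁ ρ₂) X' B' := by
  obtain ⟨h₁, B₁, hr, hg, hk1, hkB, hl1⟩ := NLG.normal (X := X) hB (by
    rintro rfl
    rw [List.length_nil] at hlen
    omega)
  have hf1 : Full N (prR ρ₁ ρ₂) (X ++ [Sum.inl h₁]) B₁ := hf.reach hr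
  rcases Nat.eq_zero_or_pos r with hr0 | hr0
  · -- rank zero
    have hsub : ∀ (Y : List (It Γ k)) (C : List (Hd Γ k)), Full N (prR ρ₁ ρ₂) Y C := by
      intro Y C w
      subst hr0
      exact Subsingleton.elim _ _
    have hkP : ∀ h ∈ B₁.drop (B₁.length - m), h ∈ B₁ := fun h hh => List.mem_of_mem_drop hh
    refine ⟨X, h₁ :: B₁.take (B₁.length - m), B₁.drop (B₁.length - m), ?_, rfl, ?_, ?_, ?_, ?_,
      hsub _ _, hsub _ _⟩
    · rw [List.cons_append, List.take_append_drop, ← NLG.ctx]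
      exact hr
    · rw [List.length_drop]
      omega
    · rw [List.length_cons, List.length_take]
      omega
    · intro h hh
      exact hg h (hkP h hh)
    · intro h hh
      rw [List.cons_append, List.take_append_drop] at hh
      rcases List.mem_cons.1 hh with rfl | hh
      · exact hk1
      · exact hkB h hh
  have : Nonempty (Fin r) := ⟨⟨0, hr0⟩⟩
  obtain ⟨X', B', P, e1, e2, e3, e4, e5, e6, e7, e8⟩ := LGN.Gr3_pair hA hG N (lin ρ₁) (lin ρ₂)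
    (X ++ [Sum.inl h₁]) B₁ m hg hkB (al_lin hr0 ρ₁ h1) (al_lin hr0 ρ₂ h2)
    ((al2_iff ρ₁ ρ₂ _).1 hf1) (by
      rw [Module.finrank_fin_fun]
      exact hm) (by
      rw [Module.finrank_fin_fun]
      omega)
  obtain ⟨X₁, h', rfl, hk'⟩ := NLG.last_killed hk1 e2
  refine ⟨X₁, h' :: B', P, ?_, ?_, e3, ?_, fun h hh => e5 h (List.mem_append_right _ hh), ?_, ?_, ?_⟩
  · rw [List.cons_append, ← NLG.ctx]
    exact hr.trans e1
  · rw [List.map_append, List.map_append] at e2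
    exact List.append_inj_left' e2 rfl
  · rw [List.length_cons]
    omega
  · intro h hh
    rw [List.cons_append] at hh
    rcases List.mem_cons.1 hh with rfl | hh
    · exact hk'
    · exact e6 h hh
  · have h9 : Full N (prR ρ₁ ρ₂) [] P := by
      refine (al2_iff ρ₁ ρ₂ _).2 ?_
      rw [List.nil_append, LGC.GI_hl]
      exact e7
    exact h9
  · have h9 : Full N (prR ρ₁ ρ₂) (X₁ ++ [Sum.inl h']) B' := (al2_iff ρ₁ ρ₂ _).2 e8
    refine h9.mono ?_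
    rw [NLG.ctx]

end

end Pool.Agent.EKL
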