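import Pool.Agent.EKL.Irr

/-!
# Two irreducible representations

Helper33, for MP_0707f5_ag (the near-linear range of helper21).
-/

set_option autoImplicit false

namespace Pool.Agent.EKL

open Module

section goursat
variable {K V₁ V₂ : Type*} [Field K] [AddCommGroup V₁] [Module K V₁] [AddCommGroup V₂]
  [Module K V₂] [FiniteDimensional K V₂]

/-- the endomorphism ring is simple -/
theorem simple_end [Nontrivial V₂] : IsSimpleRing (Module.End K V₂) := by
  classical
  have : Nonempty (Fin (finrank K V₂)) := ⟨⟨0, Module.finrank_pos⟩⟩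
  exact IsSimpleRing.of_ringEquiv (algEquivMatrix (finBasis K V₂)).symm.toRingEquiv inferInstance

/-- an algebra between a subdirect product of two matrix algebras and the product -/
theorem goursat [Nontrivial V₂] {A A' : Subalgebra K (Module.End K V₁ × Module.End K V₂)}
    (h : A ≤ A') (h1 : A.map (AlgHom.fst K (Module.End K V₁) (Module.End K V₂)) = ⊤)
    (h2 : A.map (AlgHom.snd K (Module.End K V₁) (Module.End K V₂)) = ⊤) (hne : A ≠ A') :
    A' = ⊤ := by
  have hs := simple_end (K := K) (V₂ := V₂)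
  have e1 : ∀ x : Module.End K V₁, ∃ y, (x, y) ∈ A := by
    intro x
    have hx : x ∈ A.map (AlgHom.fst K (Module.End K V₁) (Module.End K V₂)) := by
      rw [h1]
      trivial
    obtain ⟨⟨p, q⟩, hp, rfl⟩ := hx
    exact ⟨q, hp⟩
  have e2 : ∀ y : Module.End K V₂, ∃ x, (x, y) ∈ A := by
    intro y
    have hy : y ∈ A.map (AlgHom.snd K (Module.End K V₁) (Module.End K V₂)) := by
      rw [h2]
      trivial
    obtain ⟨⟨p, q⟩, hp, rfl⟩ := hy
    exact ⟨p, hp⟩
  obtain ⟨⟨x, y⟩, hxy, hxyA⟩ := SetLike.exists_of_lt (lt_of_le_of_ne h hne)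
  obtain ⟨y', hy'⟩ := e1 x
  have h3 : ((0 : Module.End K V₁), y - y') ∈ A' := by
    have h4 := A'.sub_mem hxy (h hy')
    rwa [Prod.mk_sub_mk, sub_self] at h4
  have h4 : y - y' ≠ 0 := by
    intro h5
    rw [sub_eq_zero] at h5
    rw [h5] at hxyA
    exact hxyA hy'
  let I : TwoSidedIdeal (Module.End K V₂) := TwoSidedIdeal.mk' {b | ((0 : Module.End K V₁), b) ∈ A'}
    A'.zero_mem
    (by
      intro a b ha hb
      have h5 := A'.add_mem ha hb
      rwa [Prod.mk_add_mk, add_zero] at h5)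
    (by
      intro a ha
      have h5 := A'.neg_mem ha
      rwa [Prod.neg_mk, neg_zero] at h5)
    (by
      intro a b hb
      obtain ⟨c, hc⟩ := e2 a
      have h5 := A'.mul_mem (h hc) hb
      rwa [Prod.mk_mul_mk, mul_zero] at h5)
    (by
      intro a b ha
      obtain ⟨c, hc⟩ := e2 b
      have h5 := A'.mul_mem ha (h hc)
      rwa [Prod.mk_mul_mk, zero_mul] at h5)
  have h5 : (1 : Module.End K V₂) ∈ I := by
    refine IsSimpleRing.one_mem_of_ne_zero_mem I h4 ?_
    rw [TwoSidedIdeal.mem_mk']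
    exact h3
  have h6 : ((0 : Module.End K V₁), (1 : Module.End K V₂)) ∈ A' := by
    rw [TwoSidedIdeal.mem_mk'] at h5
    exact h5
  have h7 : ((1 : Module.End K V₁), (0 : Module.End K V₂)) ∈ A' := by
    have h8 := A'.sub_mem A'.one_mem h6
    rw [Prod.one_eq_mk, Prod.mk_sub_mk, sub_zero, sub_self] at h8
    exact h8
  rw [eq_top_iff]
  rintro ⟨p, q⟩ -
  obtain ⟨q', hq'⟩ := e1 p
  obtain ⟨p', hp'⟩ := e2 q
  have h8 := A'.add_mem (A'.mul_mem h7 (h hq')) (A'.mul_mem h6 (h hp'))
  rw [Prod.mk_mul_mk, Prod.mk_mul_mk, Prod.mk_add_mk, one_mul, zero_mul, zero_mul, one_mul,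
    add_zero, zero_add] at h8
  exact h8

end goursat

section two
variable {K V₁ V₂ ι : Type*} [Field K] [IsAlgClosed K] [AddCommGroup V₁] [Module K V₁]
  [FiniteDimensional K V₁] [Nontrivial V₁] [AddCommGroup V₂] [Module K V₂]
  [FiniteDimensional K V₂] [Nontrivial V₂] [DecidableEq ι]

/-- an irreducible algebra is everything -/
theorem eq_top_of_irr {A : Subalgebra K (Module.End K V₁)} (h : ∀ W, St A W → W = ⊥ ∨ W = ⊤) :
    A = ⊤ := by
  rw [eq_top_iff]
  rintro f -
  have hE : Smp A ⊤ := ⟨St.top A, top_ne_bot, fun W hW _ => h W hW⟩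
  obtain ⟨a, ha, h1⟩ := hE.dense (Submodule.topEquiv.symm.toLinearMap ∘ₗ f ∘ₗ
    Submodule.topEquiv.toLinearMap)
  have h2 : a = f := by
    ext v
    exact h1 ⟨v, trivial⟩
  rwa [← h2]

/-- **the key lemma for two representations** -/
theorem two (B : Finset ι) (A : Finset ι → Subalgebra K (Module.End K V₁ × Module.End K V₂))
    (hm : Monotone A) (hg : ∀ I ⊂ B, A B ≤ ⨆ j ∈ B \ I, A (insert j I))
    (h1 : ∀ W, St ((A B).map (AlgHom.fst K (Module.End K V₁) (Module.End K V₂))) W →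
      W = ⊥ ∨ W = ⊤)
    (h2 : ∀ W, St ((A B).map (AlgHom.snd K (Module.End K V₁) (Module.End K V₂))) W →
      W = ⊥ ∨ W = ⊤) :
    ∃ I ⊆ B, I.card ≤ 4 * (finrank K V₁ - 1) + 4 * (finrank K V₂ - 1) + 1 ∧ A I = A B := by
  obtain ⟨I₁, hI₁, hc₁, he₁⟩ := irr B
    (fun I => (A I).map (AlgHom.fst K (Module.End K V₁) (Module.End K V₂)))
    (fun I J hIJ => Subalgebra.map_mono (hm hIJ)) (fun I hI => by
      refine (Subalgebra.map_mono (hg I hI)).trans ?_
      rw [(Subalgebra.gc_map_comap _).l_iSup₂]) h1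
  obtain ⟨I₂, hI₂, hc₂, he₂⟩ := irr B
    (fun I => (A I).map (AlgHom.snd K (Module.End K V₁) (Module.End K V₂)))
    (fun I J hIJ => Subalgebra.map_mono (hm hIJ)) (fun I hI => by
      refine (Subalgebra.map_mono (hg I hI)).trans ?_
      rw [(Subalgebra.gc_map_comap _).l_iSup₂]) h2
  have ht₁ := eq_top_of_irr h1
  have ht₂ := eq_top_of_irr h2
  set I := I₁ ∪ I₂ with hI
  have hIB : I ⊆ B := Finset.union_subset hI₁ hI₂
  have hcI : I.card ≤ I₁.card + I₂.card := Finset.card_union_le I₁ I₂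
  have hf : (A I).map (AlgHom.fst K (Module.End K V₁) (Module.End K V₂)) = ⊤ := by
    rw [eq_top_iff, ← ht₁, ← he₁]
    exact Subalgebra.map_mono (hm Finset.subset_union_left)
  have hs : (A I).map (AlgHom.snd K (Module.End K V₁) (Module.End K V₂)) = ⊤ := by
    rw [eq_top_iff, ← ht₂, ← he₂]
    exact Subalgebra.map_mono (hm Finset.subset_union_right)
  by_cases hIeq : I = B
  · exact ⟨I, hIB, by omega, by rw [hIeq]⟩
  by_cases hall : ∀ j ∈ B \ I, A (insert j I) ≤ A I
  · exact ⟨I, hIB, by omega, le_antisymm (hm hIB)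
      ((hg I (lt_of_le_of_ne hIB hIeq)).trans (iSup₂_le hall))⟩
  · push Not at hall
    obtain ⟨j, hj, hne⟩ := hall
    have h3 : A (insert j I) = ⊤ := goursat (hm (Finset.subset_insert j I)) hf hs
      fun h => hne h.ge
    have hjB : insert j I ⊆ B := Finset.insert_subset (Finset.mem_sdiff.1 hj).1 hIB
    have h4 : A B = ⊤ := by
      rw [eq_top_iff, ← h3]
      exact hm hjB
    refine ⟨insert j I, hjB, ?_, h3.trans h4.symm⟩
    have h5 := Finset.card_insert_le j I
    omega

end two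

end Pool.Agent.EKL
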